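import Pool.Agent.W518.PC.SecDiff

/-!
# The canonical bundle of a plane curve
-/

set_option autoImplicit false

open scoped WithZero Matrix
open IntermediateField
open Pool.Agent.Helper395.CS hiding genus
open Pool.Agent.Helper395.BC

namespace Pool.Agent.W518.PC

variable {K : Type} [Field K] [Algebra ℂ K] {n m δ : ℕ}

theorem linearIndependent_zpow_aux {z : K} (hz : Transcendental ℂ z) :
    LinearIndependent ℂ (fun i : ℕ => z ^ i) := by
  have h1 := (Polynomial.basisMonomials ℂ).linearIndependent.map'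
    (Polynomial.aeval z : Polynomial ℂ →ₐ[ℂ] K).toLinearMap (by
      rw [LinearMap.ker_eq_bot]
      exact transcendental_iff_injective.1 hz)
  have e : (fun i : ℕ => z ^ i) = (Polynomial.aeval z : Polynomial ℂ →ₐ[ℂ] K).toLinearMap ∘
      (Polynomial.basisMonomials ℂ) := by
    funext i
    simp
  rw [e]
  exact h1

theorem linearIndependent_y (hK : IsCurve K) (D : PD K δ) :
    LinearIndependent ℂ⟮D.z⟯ (fun j : Fin δ => D.y ^ (j : ℕ)) := by
  have := hK.finiteDimensional D.transc
  have h1 := linearIndependent_pow (K := ℂ⟮D.z⟯) D.y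
  have h2 : (minpoly ℂ⟮D.z⟯ D.y).natDegree = δ := by
    rw [← IntermediateField.adjoin.finrank (Algebra.IsIntegral.isIntegral D.y), D.gen,
      IntermediateField.finrank_top', D.finrank_eq]
  rw [h2] at h1
  exact h1

theorem linearIndependent_zy (hK : IsCurve K) (D : PD K δ) :
    LinearIndependent ℂ (fun p : ℕ × Fin δ => D.z ^ p.1 * D.y ^ (p.2 : ℕ)) := by
  have h1 : LinearIndependent ℂ (fun i : ℕ => (AdjoinSimple.gen ℂ D.z) ^ i) := by
    apply LinearIndependent.of_comp (IsScalarTower.toAlgHom ℂ ℂ⟮D.z⟯ K).toLinearMap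
    have e : (IsScalarTower.toAlgHom ℂ ℂ⟮D.z⟯ K).toLinearMap ∘
        (fun i : ℕ => (AdjoinSimple.gen ℂ D.z) ^ i) = fun i => D.z ^ i := by
      funext i
      simp
    rw [e]
    exact linearIndependent_zpow_aux D.transc
  have h2 := linearIndependent_smul h1 (linearIndependent_y hK D)
  have e : (fun p : ℕ × Fin δ => D.z ^ p.1 * D.y ^ (p.2 : ℕ)) =
      fun p : ℕ × Fin δ => (AdjoinSimple.gen ℂ D.z) ^ p.1 • D.y ^ (p.2 : ℕ) := by
    funext p
    rw [Algebra.smul_def, map_pow]
    rfl
  rw [e]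
  exact h2

/-- the monomials of degree at most `t` are sections of `L ^ t` -/
theorem mono_mem (D : PD K δ) {t i j : ℕ} (h : i + j ≤ t) :
    D.z ^ i * D.y ^ j ∈ H0 (lpow D.L t) := by
  intro v
  change v.val (D.z ^ i * D.y ^ j) ≤ v.val (((D.L.frame v) ^ (t : ℤ) : Kˣ) : K)
  rw [zpow_natCast, Units.val_pow_eq_pow_val, map_mul, map_pow, map_pow, map_pow]
  have h1 := one_le_frame D v
  have hz : v.val D.z ≤ v.val (D.L.frame v : K) := by rw [D.frame_val]; exact le_max_right _ _
  have hy : v.val D.y ≤ v.val (D.L.frame v : K) := by rw [D.frame_val]; exact D.y_le v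
  calc v.val D.z ^ i * v.val D.y ^ j ≤ v.val (D.L.frame v : K) ^ i * v.val (D.L.frame v : K) ^ j :=
        mul_le_mul' (pow_le_pow_left' hz i) (pow_le_pow_left' hy j)
    _ = v.val (D.L.frame v : K) ^ (i + j) := (pow_add _ _ _).symm
    _ ≤ _ := pow_le_pow_right₀ h1 h

/-- the index set of the monomials `z^i y^j` with `j < k`, `i < k - j` -/
abbrev Idx (k : ℕ) : Type := Σ j : Fin k, Fin (k - j)

theorem card_Idx (k : ℕ) : Fintype.card (Idx k) * 2 = k * (k + 1) := by
  rw [Fintype.card_sigma]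
  simp only [Fintype.card_fin]
  rw [Fin.sum_univ_eq_sum_range (fun j => k - j) k]
  induction k with
  | zero => simp
  | succ k ih =>
    rw [Finset.sum_range_succ']
    simp only [Nat.add_sub_add_right, Nat.sub_zero]
    rw [add_mul, ih]
    ring

/-- `can ≅ L ^ (δ - 3)` and the sections of `can` -/
theorem can_sections (hK : IsCurve K) (hg : genus K ≠ 0) (D : PD K δ) (h3 : 3 ≤ δ) :
    ∃ a : K, a ≠ 0 ∧ ∀ f ∈ H0 (can hK hg), ∃ x ∈ Submodule.span ℂ⟮D.z⟯
      (Set.range fun j : Fin (δ - 2) => D.y ^ (j : ℕ)), f = a * x := by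
  obtain ⟨k, rfl⟩ : ∃ k, δ = k + 3 := ⟨δ - 3, by omega⟩
  set M := lpow D.L (k : ℕ) with hM
  have hge : (genus K : ℤ) * 2 = ((k : ℤ) + 2) * (k + 1) := by
    have := D.genus_eq
    push_cast at this
    rw [this]
    ring
  -- the monomials
  let w : Idx (k + 1) → H0 M := fun p => ⟨D.z ^ (p.2 : ℕ) * D.y ^ (p.1 : ℕ), mono_mem D (by
    have := p.2.2
    omega)⟩
  have hw : LinearIndependent ℂ w := by
    apply LinearIndependent.of_comp (H0 M).subtype
    have h1 := (linearIndependent_zy hK D).comp (fun p : Idx (k + 1) =>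
      ((p.2 : ℕ), (⟨(p.1 : ℕ), by have := p.1.2; omega⟩ : Fin (k + 3)))) (by
        rintro ⟨a, b⟩ ⟨c, d⟩ h
        simp only [Prod.mk.injEq, Fin.mk.injEq] at h
        obtain ⟨h1, h2⟩ := h
        have h3 : a = c := Fin.ext h2
        subst h3
        have h4 : b = d := Fin.ext h1
        rw [h4])
    exact h1
  have hfd := (rrL hK hg M).1
  have hcard := hw.fintype_card_le_finrank
  have hc := card_Idx (k + 1)
  have hge2 : Fintype.card (Idx (k + 1)) = genus K := by
    have : (Fintype.card (Idx (k + 1)) : ℤ) * 2 = (k + 1) * (k + 1 + 1) := by exact_mod_cast hc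
    have h4 : (Fintype.card (Idx (k + 1)) : ℤ) * 2 = (genus K : ℤ) * 2 := by
      rw [this, hge]
      ring
    omega
  have hdeg : M.degree = 2 * genus K - 2 := by
    rw [hM, lpow_degree, D.deg]
    push_cast
    linarith
  -- Riemann-Roch
  have hrr := (rrL hK hg M).2
  rw [hdeg] at hrr
  have hpos : 1 ≤ Module.finrank ℂ (H0 (lmul (can hK hg) (linv M))) := by
    rw [hge2] at hcard
    omega
  have hN : (lmul (can hK hg) (linv M)).degree = 0 := by
    rw [lmul_degree, linv_degree, can_degree, hdeg]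
    ring
  have hne : H0 (lmul (can hK hg) (linv M)) ≠ ⊥ := by
    intro h
    rw [h, finrank_bot] at hpos
    omega
  obtain ⟨a, ha, ha0⟩ := Submodule.exists_mem_ne_zero_of_ne_bot hne
  have hval := inv_mem_of_degree_zero hK hN ha ha0
  have hval' : ∀ v : Point K, v.val ((can hK hg).frame v : K) = v.val a * v.val (M.frame v : K) := by
    intro v
    rw [hval v]
    change _ = v.val ((((can hK hg).frame v * (M.frame v)⁻¹ : Kˣ)) : K) * _
    rw [Units.val_mul, map_mul, Units.val_inv_eq_inv_val, map_inv₀,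
      inv_mul_cancel_right₀ (v.val_ne_zero (M.frame v).ne_zero)]
  have hiff : ∀ x : K, x ∈ H0 M ↔ a * x ∈ H0 (can hK hg) := by
    intro x
    refine forall_congr' fun v => ?_
    change v.val x ≤ v.val (M.frame v : K) ↔ v.val (a * x) ≤ v.val ((can hK hg).frame v : K)
    rw [hval' v, map_mul]
    exact (mul_le_mul_iff_right₀ (zero_lt_iff.2 (v.val_ne_zero ha0))).symm
  -- the dimension of H0 M
  have hdim : Module.finrank ℂ (H0 M) = genus K := by
    rw [← can_h0 hK hg]
    let e : H0 M →ₗ[ℂ] H0 (can hK hg) :=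
      { toFun := fun x => ⟨a * x.1, (hiff x.1).1 x.2⟩
        map_add' := fun x y => Subtype.ext (mul_add _ _ _)
        map_smul' := fun c x => Subtype.ext (mul_smul_comm _ _ _) }
    have he : Function.Bijective e := by
      constructor
      · intro x y hxy
        have : a * x.1 = a * y.1 := congrArg Subtype.val hxy
        exact Subtype.ext (mul_left_cancel₀ ha0 this)
      · rintro ⟨y, hy⟩
        refine ⟨⟨a⁻¹ * y, (hiff _).2 ?_⟩, Subtype.ext ?_⟩
        · rw [mul_inv_cancel_left₀ ha0]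
          exact hy
        · exact mul_inv_cancel_left₀ ha0 y
    exact (LinearEquiv.ofBijective e he).finrank_eq
  have hspan : Submodule.span ℂ (Set.range w) = ⊤ := by
    apply hw.span_eq_top_of_card_eq_finrank'
    rw [hge2, hdim]
  refine ⟨a, ha0, fun f hf => ⟨a⁻¹ * f, ?_, (mul_inv_cancel_left₀ ha0 f).symm⟩⟩
  have hx : a⁻¹ * f ∈ H0 M := by
    rw [hiff, mul_inv_cancel_left₀ ha0]
    exact hf
  have hx2 : (⟨a⁻¹ * f, hx⟩ : H0 M) ∈ Submodule.span ℂ (Set.range w) := by
    rw [hspan]
    trivial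
  have key : ∀ x : H0 M, x ∈ Submodule.span ℂ (Set.range w) → (x : K) ∈ Submodule.span ℂ⟮D.z⟯
      (Set.range fun j : Fin (k + 3 - 2) => D.y ^ (j : ℕ)) := by
    intro x hx
    induction hx using Submodule.span_induction with
    | mem x hx =>
      obtain ⟨p, rfl⟩ := hx
      have h1 : ((w p : H0 M) : K) = (AdjoinSimple.gen ℂ D.z) ^ (p.2 : ℕ) • D.y ^ (p.1 : ℕ) := by
        rw [Algebra.smul_def, map_pow]
        rfl
      rw [h1]
      exact Submodule.smul_mem _ _ (Submodule.subset_span ⟨⟨(p.1 : ℕ), by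
        have := p.1.2
        omega⟩, rfl⟩)
    | zero => exact zero_mem _
    | add x y _ _ hx hy => exact add_mem hx hy
    | smul c x _ hx =>
      have h1 : ((c • x : H0 M) : K) = (algebraMap ℂ ℂ⟮D.z⟯ c) • (x : K) := by
        rw [algebraMap_smul]
        rfl
      rw [h1]
      exact Submodule.smul_mem _ _ hx
  exact key _ hx2

theorem s_J : S_J := by
  intro K _ _ hK hg δ D h3 n E S hS f hf s hs
  obtain ⟨a, ha, hcan⟩ := can_sections hK hg D h3
  set T := Submodule.span ℂ⟮D.z⟯ (Set.range fun j : Fin (δ - 2) => D.y ^ (j : ℕ)) with hT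
  have := hK.finiteDimensional D.transc
  have hTtop : T ≠ ⊤ := by
    intro h
    have h1 : Module.finrank ℂ⟮D.z⟯ T ≤ Fintype.card (Fin (δ - 2)) := finrank_range_le_card _
    rw [h, finrank_top, D.finrank_eq, Fintype.card_fin] at h1
    omega
  let lam : (Fin n → K) →ₗ[K] K :=
    { toFun := fun s => ∑ i, f i * s i
      map_add' := fun s t => by simp [mul_add, Finset.sum_add_distrib]
      map_smul' := fun c s => by
        simp only [Pi.smul_apply, smul_eq_mul, Finset.mul_sum, RingHom.id_apply]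
        exact Finset.sum_congr rfl fun _ _ => by ring }
  have h1 : ∀ t ∈ Submodule.span ℂ⟮D.z⟯ (E.sections : Set (Fin n → K)), ∃ x ∈ T, lam t = a * x := by
    intro t ht
    induction ht using Submodule.span_induction with
    | mem t ht => exact hcan _ (fun v => hf v t (ht v))
    | zero => exact ⟨0, zero_mem _, by rw [map_zero, mul_zero]⟩
    | add t u _ _ ht hu =>
      obtain ⟨x, hx, hx'⟩ := ht
      obtain ⟨y, hy, hy'⟩ := hu
      exact ⟨x + y, add_mem hx hy, by rw [map_add, hx', hy', mul_add]⟩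
    | smul c t _ ht =>
      obtain ⟨x, hx, hx'⟩ := ht
      refine ⟨c • x, Submodule.smul_mem _ c hx, ?_⟩
      have h2 : lam (c • t) = c • lam t := by
        have h3 : c • t = ((c : ℂ⟮D.z⟯) : K) • t := rfl
        rw [h3, map_smul]
        rfl
      rw [h2, hx', mul_smul_comm]
  change lam s = 0
  by_contra hne
  apply hTtop
  rw [eq_top_iff]
  intro b _
  obtain ⟨x, hx, hx'⟩ := h1 _ (hS _ (S.smul_mem (a * b / lam s) hs))
  rw [map_smul, smul_eq_mul, div_mul_cancel₀ _ hne] at hx'
  rw [mul_left_cancel₀ ha hx']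
  exact hx

end Pool.Agent.W518.PC
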