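import Pool.Agent.W518.PC.Stmts

/-!
# The bound `h⁰(E) ≤ rk(E) Θ(μ)` for bundles all of whose subbundles have slope at most `μ`
-/

set_option autoImplicit false

open scoped WithZero Matrix
open IntermediateField
open Pool.Agent.Helper395.CS hiding genus
open Pool.Agent.Helper395.BC

namespace Pool.Agent.W518.PC

variable {K : Type} [Field K] [Algebra ℂ K] {n m : ℕ}

/-- a maximum principle for sequences -/
theorem max_principle (u : ℤ → ℝ) (a b : ℤ) (hA : ∀ t, t ≤ a → u t ≤ 0) (hB : ∀ t, b ≤ t → u t ≤ 0)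
    (hC : ∀ t, 0 < u t → 2 * u t ≤ u (t + 1) + u (t - 1)) (t : ℤ) : u t ≤ 0 := by
  by_contra hcon
  rw [not_le] at hcon
  rcases le_or_gt (u t) (u (t + 1)) with h | h
  · have key : ∀ k : ℕ, 0 < u (t + k) ∧ u (t + k) ≤ u (t + k + 1) := by
      intro k
      induction k with
      | zero => simpa using ⟨hcon, h⟩
      | succ k ih =>
        obtain ⟨h1, h2⟩ := ih
        have h3 : 0 < u (t + k + 1) := lt_of_lt_of_le h1 h2
        have h4 := hC _ h3
        rw [show t + (k : ℤ) + 1 - 1 = t + k by ring] at h4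
        push_cast
        rw [← add_assoc]
        exact ⟨h3, by linarith⟩
    have h1 := (key (b - t).toNat).1
    have h2 := hB (t + (b - t).toNat) (by have := Int.self_le_toNat (b - t); omega)
    linarith
  · have h' : u t ≤ u (t - 1) := by have := hC t hcon; linarith
    have key : ∀ k : ℕ, 0 < u (t - k) ∧ u (t - k) ≤ u (t - k - 1) := by
      intro k
      induction k with
      | zero => simpa using ⟨hcon, h'⟩
      | succ k ih =>
        obtain ⟨h1, h2⟩ := ih
        have h3 : 0 < u (t - k - 1) := lt_of_lt_of_le h1 h2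
        have h4 := hC _ h3
        rw [show t - (k : ℤ) - 1 + 1 = t - k by ring] at h4
        push_cast
        rw [show t - ((k : ℤ) + 1) = t - k - 1 by ring]
        exact ⟨h3, by linarith⟩
    have h1 := (key (t - a).toNat).1
    have h2 := hA (t - (t - a).toNat) (by have := Int.self_le_toNat (t - a); omega)
    linarith

/-- all the parts used for the bound -/
structure Parts : Prop where
  t1 : S_T1
  t2 : S_T2
  t3 : S_T3
  t4 : S_T4
  q : S_Q
  q2 : S_Q2
  m : S_M
  k1 : S_K1
  k2 : S_K2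
  k3 : S_K3
  k4 : S_K4
  k5 : S_K5
  k6 : S_K6
  d : S_D
  j : S_J

theorem lpow_degree (L : LineBundle K) (t : ℤ) : (lpow L t).degree = t * L.degree := by
  unfold LineBundle.degree
  have h : ∀ v : Point K, -v.ord ((lpow L t).frame v : K) = t * -v.ord (L.frame v : K) := by
    intro v
    change -v.ord (((L.frame v) ^ t : Kˣ) : K) = _
    have h1 : v.ord (((L.frame v) ^ t : Kˣ) : K) = t * v.ord (L.frame v : K) := by
      unfold Point.ord
      rw [Units.val_zpow_eq_zpow_val, map_zpow₀, WithZero.log_zpow]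
      simp
    rw [h1]
    ring
  rw [finsum_congr h, mul_finsum]

theorem tw_tw (L : LineBundle K) (E : Bundle K n) (s t : ℤ) (v : Point K) :
    (tw L (tw L E s) t).stalk v = (tw L E (s + t)).stalk v := by
  ext x
  unfold tw
  rw [mem_btw, mem_btw, mem_btw, smul_smul]
  have h : ((lpow L s).frame v : K)⁻¹ * ((lpow L t).frame v : K)⁻¹ =
      ((lpow L (s + t)).frame v : K)⁻¹ := by
    change (((L.frame v) ^ s : Kˣ) : K)⁻¹ * (((L.frame v) ^ t : Kˣ) : K)⁻¹ =
      (((L.frame v) ^ (s + t) : Kˣ) : K)⁻¹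
    rw [← mul_inv, ← Units.val_mul, ← zpow_add]
  rw [h]

theorem sections_congr {E F : Bundle K n} (h : ∀ v, E.stalk v = F.stalk v) :
    E.sections = F.sections := by
  ext s
  exact ⟨fun hs v => by rw [← h v]; exact hs v, fun hs v => by rw [h v]; exact hs v⟩

theorem tw_zero_sections (L : LineBundle K) (E : Bundle K n) : (tw L E 0).sections = E.sections := by
  apply sections_congr
  intro v
  ext x
  unfold tw
  rw [mem_btw]
  change (((L.frame v) ^ (0 : ℤ) : Kˣ) : K)⁻¹ • x ∈ _ ↔ _
  simp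

theorem tw_degree {δ : ℕ} (D : PD K δ) (E : Bundle K n) (t : ℤ) :
    (tw D.L E t).degree = E.degree + n * (t * δ) := by
  rw [tw, btw_degree, lpow_degree, D.deg]

theorem finrank_ann (S : Submodule K (Fin n → K)) (hS : S ≠ ⊥) :
    ∃ U : Submodule K (Fin n → K), Module.finrank K U < n ∧
      ∀ f : Fin n → K, (∀ s ∈ S, ∑ i, f i * s i = 0) → f ∈ U := by
  obtain ⟨s, hs, hs0⟩ := Submodule.exists_mem_ne_zero_of_ne_bot hS
  let φ : (Fin n → K) →ₗ[K] K :=
    { toFun := fun f => ∑ i, f i * s i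
      map_add' := fun f g => by simp [add_mul, Finset.sum_add_distrib]
      map_smul' := fun c f => by simp [Finset.mul_sum, mul_assoc] }
  refine ⟨LinearMap.ker φ, ?_, fun f hf => hf s hs⟩
  obtain ⟨i, hi⟩ : ∃ i, s i ≠ 0 := by
    by_contra h
    push Not at h
    exact hs0 (funext h)
  have h1 : LinearMap.ker φ ≠ ⊤ := by
    intro h
    have h2 : (Pi.single i 1 : Fin n → K) ∈ LinearMap.ker φ := by rw [h]; trivial
    rw [LinearMap.mem_ker] at h2
    change ∑ k, (Pi.single i 1 : Fin n → K) k * s k = 0 at h2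
    simp [Pi.single_apply] at h2
    exact hi h2
  have h2 := Submodule.finrank_lt h1
  rwa [Module.finrank_fin_fun] at h2

variable {δ : ℕ}

/-- The key alternative: either the second difference of `h⁰(E(t))` is at least `n`, or `h⁰(E)` or
`h¹(E)` is bounded by means of a bundle of smaller rank. -/
theorem alternative (P : Parts) (hK : IsCurve K) (hg : genus K ≠ 0) (D : PD K δ) (h3 : 3 ≤ δ)
    (IH : ∀ r < n, ∀ (F : Bundle K r) (μ : ℝ), SlopeLe F μ →
      (Module.finrank ℂ F.sections : ℝ) ≤ r * Th δ μ)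
    (E : Bundle K n) (μ : ℝ) (hE : SlopeLe E μ) (hd : (E.degree : ℝ) = μ * n) :
    (n + 2 * Module.finrank ℂ E.sections ≤
      Module.finrank ℂ (tw D.L E 1).sections + Module.finrank ℂ (tw D.L E (-1)).sections) ∨
    (∃ r < n, (Module.finrank ℂ E.sections : ℝ) ≤ r * Th δ μ) ∨
    (∃ r < n, (Module.finrank ℂ E.sections : ℝ) ≤ r * Th δ (δ * (δ - 3) - μ) +
      n * (μ + 1 - ((δ : ℝ) - 1) * (δ - 2) / 2)) := by
  by_cases hS : ∀ S : Submodule K (Fin n → K),
    (∀ s ∈ S, s ∈ Submodule.span ℂ⟮D.z⟯ (E.sections : Set (Fin n → K))) → S = ⊥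
  · have h1 := P.d K hK hg δ D (by omega) n E hS
    set U := Submodule.span K ((tw D.L E 1).sections : Set (Fin n → K)) with hU
    have hUn : Module.finrank K U ≤ n := by
      have := Submodule.finrank_le U
      rwa [Module.finrank_fin_fun] at this
    rcases hUn.lt_or_eq with h2 | h2
    · right
      left
      have h4 : ∀ s ∈ E.sections, s ∈ U := by
        intro s hs
        apply Submodule.subset_span
        intro v
        rw [tw, mem_btw]
        apply stalk_smul (hs v)
        change v.val ((((D.L.frame v) ^ (1 : ℤ) : Kˣ) : K)⁻¹) ≤ 1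
        rw [zpow_one, map_inv₀, D.frame_val v]
        exact inv_le_one_of_one_le₀ (le_max_left _ _)
      obtain ⟨F, j, hF, hF2⟩ := P.k5 K hK n E U h4
      refine ⟨_, h2, ?_⟩
      rw [← hF2]
      exact IH _ h2 F μ (P.k1 K hK n _ E F j hF μ hE)
    · left
      rw [h2] at h1
      exact h1
  · push Not at hS
    obtain ⟨S, hS1, hS2⟩ := hS
    right
    right
    obtain ⟨U, hU1, hU2⟩ := finrank_ann S hS2
    have h4 : ∀ s ∈ (btw (bdual E) (can hK hg)).sections, s ∈ U := by
      intro f hf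
      rw [← P.k6 K hK hg n E] at hf
      exact hU2 f (P.j K hK hg δ D h3 n E S hS1 f hf)
    have h5 := P.k2 K hK n (bdual E) (can hK hg) (-μ) (P.k4 K hK n E μ hE hd)
    obtain ⟨F, j, hF, hF2⟩ := P.k5 K hK n _ U h4
    have h6 := IH _ hU1 F _ (P.k1 K hK n _ _ F j hF _ h5)
    obtain ⟨-, -, h7⟩ := rr hK hg E
    have hge := D.genus_eq
    have hge' : (genus K : ℝ) * 2 = ((δ : ℝ) - 1) * (δ - 2) := by exact_mod_cast hge
    have hcan : (-μ + ((can hK hg).degree : ℤ)) = δ * (δ - 3) - μ := by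
      rw [can_degree]
      push_cast
      linarith
    rw [hcan] at h6
    refine ⟨_, hU1, ?_⟩
    rw [P.k6 K hK hg n E, ← hF2] at h7
    have h8 : (Module.finrank ℂ E.sections : ℝ) - Module.finrank ℂ F.sections =
        E.degree + n * (1 - genus K) := by exact_mod_cast h7
    rw [hd] at h8
    have h9 : (genus K : ℝ) = ((δ : ℝ) - 1) * (δ - 2) / 2 := by linarith
    rw [h9] at h8
    nlinarith

/-- the bound for semistable bundles -/
theorem bound_semistable (P : Parts) (hK : IsCurve K) (hg : genus K ≠ 0) (D : PD K δ) (h3 : 3 ≤ δ)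
    (hn : 0 < n) (IH : ∀ r < n, ∀ (F : Bundle K r) (μ : ℝ), SlopeLe F μ →
      (Module.finrank ℂ F.sections : ℝ) ≤ r * Th δ μ)
    (E : Bundle K n) (μ : ℝ) (hE : SlopeLe E μ) (hd : (E.degree : ℝ) = μ * n) :
    (Module.finrank ℂ E.sections : ℝ) ≤ n * Th δ μ := by
  have hδ : (0 : ℝ) < δ := by
    have : (3 : ℝ) ≤ δ := by exact_mod_cast h3
    linarith
  have hn' : (0 : ℝ) < n := by exact_mod_cast hn
  set u : ℤ → ℝ := fun t => (Module.finrank ℂ (tw D.L E t).sections : ℝ) - n * Th δ (μ + t * δ)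
    with hu
  have hsl : ∀ t : ℤ, SlopeLe (tw D.L E t) (μ + t * δ) := by
    intro t
    have h1 := P.k2 K hK n E (lpow D.L t) μ hE
    rw [lpow_degree, D.deg] at h1
    push_cast at h1
    exact h1
  have hdeg : ∀ t : ℤ, ((tw D.L E t).degree : ℝ) = (μ + t * δ) * n := by
    intro t
    rw [tw_degree]
    push_cast
    rw [hd]
    ring
  have hge' : (genus K : ℝ) * 2 = ((δ : ℝ) - 1) * (δ - 2) := by exact_mod_cast D.genus_eq
  have hmono := (P.t1 δ h3).1
  have hnonneg := (P.t1 δ h3).2
  have hneg : ∀ t : ℤ, μ + t * δ < 0 → u t ≤ 0 := by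
    intro t ht
    have h1 := P.k3 K hK n _ _ (hsl t) ht
    simp only [hu]
    rw [h1, finrank_bot]
    have := hnonneg (μ + t * δ)
    simp only [Nat.cast_zero, zero_sub, Left.neg_nonpos_iff]
    positivity
  have hpos : ∀ t : ℤ, δ * (δ - 3) < μ + t * δ → u t ≤ 0 := by
    intro t ht
    have h4 := P.k2 K hK n (bdual (tw D.L E t)) (can hK hg) _ (P.k4 K hK n _ _ (hsl t) (hdeg t))
    have hcan : (-(μ + t * δ) + ((can hK hg).degree : ℤ)) = δ * (δ - 3) - (μ + t * δ) := by
      rw [can_degree]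
      push_cast
      linarith
    rw [hcan] at h4
    have h5 := P.k3 K hK n _ _ h4 (by linarith)
    obtain ⟨-, -, h7⟩ := rr hK hg (tw D.L E t)
    rw [P.k6 K hK hg n, h5, finrank_bot] at h7
    have h8 : (Module.finrank ℂ (tw D.L E t).sections : ℝ) - (0 : ℕ) =
        (tw D.L E t).degree + n * (1 - genus K) := by exact_mod_cast h7
    rw [hdeg t] at h8
    have h9 := P.t2 δ h3 (μ + t * δ)
    have h10 := hnonneg (δ * (δ - 3) - (μ + t * δ))
    simp only [hu]
    have h11 : (genus K : ℝ) = ((δ : ℝ) - 1) * (δ - 2) / 2 := by linarith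
    rw [h11] at h8
    have h12 : (0 : ℝ) ≤ n * Th δ (δ * (δ - 3) - (μ + t * δ)) := by positivity
    rw [h9]
    push_cast at h8
    nlinarith
  have hC : ∀ t : ℤ, 0 < u t → 2 * u t ≤ u (t + 1) + u (t - 1) := by
    intro t ht
    have ht1 : 0 ≤ μ + t * δ := by
      by_contra hcon
      exact absurd (hneg t (by linarith)) (by linarith)
    have ht2 : μ + t * δ ≤ δ * (δ - 3) := by
      by_contra hcon
      exact absurd (hpos t (by linarith)) (by linarith)
    have hsd := P.t3 δ h3 _ ht1 ht2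
    rcases alternative P hK hg D h3 IH (tw D.L E t) (μ + t * δ) (hsl t) (hdeg t) with h | h | h
    · have e1 : (tw D.L (tw D.L E t) 1).sections = (tw D.L E (t + 1)).sections :=
        sections_congr (tw_tw D.L E t 1)
      have e2 : (tw D.L (tw D.L E t) (-1)).sections = (tw D.L E (t - 1)).sections :=
        sections_congr (tw_tw D.L E t (-1))
      rw [e1, e2] at h
      have h' : (n : ℝ) + 2 * Module.finrank ℂ (tw D.L E t).sections ≤
        Module.finrank ℂ (tw D.L E (t + 1)).sections +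
          Module.finrank ℂ (tw D.L E (t - 1)).sections := by exact_mod_cast h
      simp only [hu]
      have e3 : μ + ((t + 1 : ℤ) : ℝ) * δ = μ + t * δ + δ := by push_cast; ring
      have e4 : μ + ((t - 1 : ℤ) : ℝ) * δ = μ + t * δ - δ := by push_cast; ring
      rw [e3, e4]
      nlinarith
    · exfalso
      obtain ⟨r, hr, h⟩ := h
      have h1 := hnonneg (μ + t * δ)
      have h2 : (r : ℝ) ≤ n := by exact_mod_cast hr.le
      have h3 : (r : ℝ) * Th δ (μ + t * δ) ≤ n * Th δ (μ + t * δ) :=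
        mul_le_mul_of_nonneg_right h2 h1
      simp only [hu] at ht
      linarith
    · exfalso
      obtain ⟨r, hr, h⟩ := h
      have h1 := hnonneg (δ * (δ - 3) - (μ + t * δ))
      have h2 : (r : ℝ) ≤ n := by exact_mod_cast hr.le
      have h3' : (r : ℝ) * Th δ (δ * (δ - 3) - (μ + t * δ)) ≤
        n * Th δ (δ * (δ - 3) - (μ + t * δ)) := mul_le_mul_of_nonneg_right h2 h1
      have h9 := P.t2 δ h3 (μ + t * δ)
      simp only [hu] at ht
      rw [h9] at ht
      nlinarith
  have hfin := max_principle u (⌊-μ / δ⌋ - 1) (⌈(δ * (δ - 3) - μ) / δ⌉ + 1)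
    (fun t ht => hneg t (by
      have h1 : (t : ℝ) ≤ ⌊-μ / δ⌋ - 1 := by exact_mod_cast ht
      have h2 : ((⌊-μ / δ⌋ : ℤ) : ℝ) ≤ -μ / δ := Int.floor_le _
      have h4 : (t : ℝ) < -μ / δ := by linarith
      rw [lt_div_iff₀ hδ] at h4
      linarith))
    (fun t ht => hpos t (by
      have h1 : ((⌈(δ * (δ - 3) - μ) / δ⌉ : ℤ) : ℝ) + 1 ≤ t := by exact_mod_cast ht
      have h2 : (δ * (δ - 3) - μ) / δ ≤ ((⌈(δ * (δ - 3) - μ) / δ⌉ : ℤ) : ℝ) := Int.le_ceil _
      have h4 : (δ * (δ - 3) - μ) / δ < (t : ℝ) := by linarith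
      rw [div_lt_iff₀ hδ] at h4
      linarith)) hC 0
  simp only [hu] at hfin
  rw [tw_zero_sections] at hfin
  simp only [Int.cast_zero, zero_mul, add_zero] at hfin
  linarith

theorem degree_of_full (hK : IsCurve K) {E F : Bundle K n} {j : (Fin n → K) →ₗ[K] (Fin n → K)}
    (hj : IsSubbundle F E j) : E.degree = F.degree := by
  have hs : Function.Surjective j := (LinearMap.injective_iff_surjective).1 hj.injective
  have h := (degree_exact hK (G := trivialBundle K 0) (P := 0) hj
    (fun y => ⟨0, Subsingleton.elim _ _⟩) (fun s _ => LinearMap.mem_range.2 (hs s)) (fun x => rfl)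
    (fun v s _ i => i.elim0)).2 (fun v t _ => ⟨0, stalk_zero, Subsingleton.elim _ _⟩)
  rw [trivialBundle_degree, add_zero] at h
  exact h

/-- the bound -/
theorem bound (P : Parts) (hK : IsCurve K) (hg : genus K ≠ 0) (D : PD K δ) (h3 : 3 ≤ δ) :
    ∀ (n : ℕ) (E : Bundle K n) (μ : ℝ), SlopeLe E μ →
      (Module.finrank ℂ E.sections : ℝ) ≤ n * Th δ μ := by
  intro n
  induction n using Nat.strong_induction_on with
  | _ n IH =>
    intro E μ hE
    rcases Nat.eq_zero_or_pos n with rfl | hn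
    · have h1 : Module.finrank ℂ E.sections = 0 := by
        haveI : Subsingleton E.sections := inferInstance
        exact Module.finrank_zero_of_subsingleton
      rw [h1]
      simp
    have hmono := (P.t1 δ h3).1
    obtain ⟨μ₁, hμ, hE₁, m, F, j, hm, hmn, hj, hF⟩ := P.m K hK n E μ hn hE
    have hle : (n : ℝ) * Th δ μ₁ ≤ n * Th δ μ :=
      mul_le_mul_of_nonneg_left (hmono hμ) (Nat.cast_nonneg _)
    refine le_trans ?_ hle
    rcases hmn.lt_or_eq with hlt | rfl
    · obtain ⟨G, Q, hQ, hQ1, hQ2⟩ := P.q K hK n m (n - m) E F j hj (by omega)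
      obtain ⟨h4, h5⟩ := P.q2 K hK hg n m (n - m) E F j G Q hj hQ hQ1 hQ2
      have h6 := IH m hlt F μ₁ (P.k1 K hK n m E F j hj μ₁ hE₁)
      have h7 := IH (n - m) (by omega) G μ₁ (h5 μ₁ hE₁ hF)
      have h8 : (Module.finrank ℂ E.sections : ℝ) ≤ Module.finrank ℂ F.sections +
        Module.finrank ℂ G.sections := by exact_mod_cast h4
      have h9 : ((n - m : ℕ) : ℝ) = n - m := by
        rw [Nat.cast_sub hlt.le]
      rw [h9] at h7
      nlinarith
    · apply bound_semistable P hK hg D h3 hn (fun r hr => IH r hr) E μ₁ hE₁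
      rw [degree_of_full hK hj]
      exact hF

end Pool.Agent.W518.PC
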