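import Pool.Agent.W518.PC.Stmts2
import Pool.Agent.W518.PC.Bound

/-!
# The genus formula
-/

set_option autoImplicit false

open scoped WithZero Matrix
open IntermediateField
open Pool.Agent.Helper395.CS hiding genus
open Pool.Agent.Helper395.BC

namespace Pool.Agent.W518.PC

theorem choose_two_int (a : ℕ) : ((a + 2).choose 2 : ℤ) * 2 = (a + 2) * (a + 1) := by
  have h := Nat.choose_two_right (a + 2)
  have h2 : 2 ∣ (a + 2) * (a + 2 - 1) := (Nat.even_mul_pred_self (a + 2)).two_dvd
  have h3 : (a + 2).choose 2 * 2 = (a + 2) * (a + 1) := by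
    rw [h, Nat.div_mul_cancel h2]
    rfl
  exact_mod_cast h3

theorem s_N7 : S_N7 := by
  intro K _ _ hK hg δ H h2 hH hdim
  -- the dimension formula in large degree
  have key : ∀ t : ℕ, δ ≤ t → (2 * genus K : ℤ) ≤ t →
      ((t : ℤ) * H.degree + 1 - genus K) * 2 + (t - δ + 2) * (t - δ + 1) = (t + 2) * (t + 1) := by
    intro t ht htg
    have hrr := (rrL hK hg (lpow H t)).2
    have hdeg : (lpow H (t : ℤ)).degree = t * H.degree := lpow_degree H t
    have hneg : (lmul (can hK hg) (linv (lpow H t))).degree < 0 := by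
      rw [lmul_degree, linv_degree, can_degree, hdeg]
      nlinarith
    rw [H0_eq_bot hK hneg, finrank_bot, hdeg] at hrr
    have h1 := hdim t ht
    have h3 := choose_two_int t
    have h4 := choose_two_int (t - δ)
    have h5 : (Module.finrank ℂ (H0 (lpow H t)) : ℤ) + ((t - δ + 2).choose 2 : ℕ) =
      ((t + 2).choose 2 : ℕ) := by exact_mod_cast h1
    rw [Nat.cast_sub ht] at h4
    push_cast at hrr h3 h4 h5
    linarith
  set t := δ + 2 * genus K with ht
  have k1 := key t (by omega) (by push_cast [ht]; omega)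
  have k2 := key (t + 1) (by omega) (by push_cast [ht]; omega)
  push_cast at k1 k2
  have hdeg : H.degree = δ := by nlinarith
  rw [hdeg] at k1
  refine ⟨hdeg, ?_⟩
  nlinarith

end Pool.Agent.W518.PC
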