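import Pool.Agent.W518.PC.Stmts

/-!
# Existence of a subbundle of maximal slope
-/

set_option autoImplicit false

open scoped WithZero Matrix
open IntermediateField
open Pool.Agent.Helper395.CS hiding genus
open Pool.Agent.Helper395.BC

namespace Pool.Agent.W518.PC

variable {K : Type} [Field K] [Algebra ℂ K] {n m q : ℕ}

theorem isSubbundle_rank {F : Bundle K m} {E : Bundle K n} {j : (Fin m → K) →ₗ[K] (Fin n → K)}
    (hj : IsSubbundle F E j) : m ≤ n := by
  have := LinearMap.finrank_le_finrank_of_injective hj.injective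
  simpa using this

theorem s_M : S_M := by
  intro K _ _ hK n E μ hn hE
  have hfac : (0 : ℝ) < n.factorial := by exact_mod_cast Nat.factorial_pos n
  let S : ℤ → Prop := fun k => ∃ (m : ℕ) (F : Bundle K m) (j : (Fin m → K) →ₗ[K] (Fin n → K)),
    0 < m ∧ IsSubbundle F E j ∧ k * m = F.degree * n.factorial
  have hex : ∀ (m : ℕ) (F : Bundle K m) (j : (Fin m → K) →ₗ[K] (Fin n → K)), 0 < m →
      IsSubbundle F E j → ∃ k, S k ∧ k * m = F.degree * n.factorial := by
    intro m F j hm hj
    have h1 : m ∣ n.factorial := Nat.dvd_factorial hm (isSubbundle_rank hj)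
    obtain ⟨a, ha⟩ := h1
    have h2 : F.degree * a * m = F.degree * n.factorial := by
      rw [ha]
      push_cast
      ring
    exact ⟨F.degree * a, ⟨m, F, j, hm, hj, h2⟩, h2⟩
  have hid : IsSubbundle E E (LinearMap.id) := ⟨fun x y h => h, fun v s => Iff.rfl⟩
  obtain ⟨k1, hk1, -⟩ := hex n E _ hn hid
  have hbd : ∀ k, S k → (k : ℝ) ≤ μ * n.factorial := by
    rintro k ⟨m, F, j, hm, hj, hk⟩
    have h1 := hE m F j hm hj
    have hm' : (0 : ℝ) < m := by exact_mod_cast hm
    have h2 : (k : ℝ) * m = F.degree * n.factorial := by exact_mod_cast hk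
    have h3 : (k : ℝ) * m ≤ (μ * n.factorial) * m := by
      rw [h2]
      nlinarith
    exact le_of_mul_le_mul_right h3 hm'
  obtain ⟨k, hk, hmax⟩ := Int.exists_greatest_of_bdd (P := S)
    ⟨⌊μ * n.factorial⌋, fun z hz => Int.le_floor.2 (hbd z hz)⟩ ⟨k1, hk1⟩
  refine ⟨(k : ℝ) / n.factorial, ?_, ?_, ?_⟩
  · rw [div_le_iff₀ hfac]
    exact hbd k hk
  · intro m F j hm hj
    obtain ⟨k', hk', h1⟩ := hex m F j hm hj
    have h2 := hmax k' hk'
    have h3 : (k' : ℝ) * m = F.degree * n.factorial := by exact_mod_cast h1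
    have h4 : (k' : ℝ) ≤ k := by exact_mod_cast h2
    have hm' : (0 : ℝ) < m := by exact_mod_cast hm
    rw [div_mul_eq_mul_div, le_div_iff₀ hfac, ← h3]
    nlinarith
  · obtain ⟨m, F, j, hm, hj, h1⟩ := hk
    refine ⟨m, F, j, hm, isSubbundle_rank hj, hj, ?_⟩
    have h3 : (k : ℝ) * m = F.degree * n.factorial := by exact_mod_cast h1
    rw [div_mul_eq_mul_div, h3, mul_div_cancel_right₀ _ hfac.ne']

end Pool.Agent.W518.PC
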