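import Pool.Agent.W518.PC.N2a

/-!
# `F_2(c) H⁰(H^t)` consists of forms of degree `t + δ - 1`
-/

set_option autoImplicit false

open scoped WithZero Matrix
open IntermediateField
open Pool.Agent.Helper395.CS hiding genus
open Pool.Agent.Helper395.BC

namespace Pool.Agent.W518.PC

open MvPolynomial

variable {K : Type} [Field K] [Algebra ℂ K] {δ : ℕ} {F : MvPolynomial (Fin 3) ℂ} {c : Fin 3 → K}

theorem derivative_toB (G : MvPolynomial (Fin 3) ℂ) :
    Polynomial.derivative (toB G) = toB (pderiv 2 G) := by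
  induction G using MvPolynomial.induction_on with
  | C a =>
    rw [pderiv_C, map_zero, toB, algHom_C]
    change Polynomial.derivative (Polynomial.C (Polynomial.C a)) = 0
    rw [Polynomial.derivative_C]
  | add p q hp hq => rw [map_add, map_add, map_add, map_add, hp, hq]
  | mul_X p i hp =>
    rw [map_mul, Polynomial.derivative_mul, Derivation.leibniz, map_add, hp]
    simp only [smul_eq_mul, map_mul]
    have h1 : Polynomial.derivative (toB (X i)) = toB (pderiv 2 (X i)) := by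
      rw [toB, aeval_X]
      fin_cases i
      · simp
      · simp
      · simp
    rw [h1]
    ring

/-- the swap of the first two variables -/
def sw : Fin 3 ≃ Fin 3 := Equiv.swap 0 1

theorem aeval_swap (c : Fin 3 → K) (G : MvPolynomial (Fin 3) ℂ) :
    aeval (c ∘ sw) G = aeval c (rename sw G) := by
  rw [aeval_rename]

theorem rename_sw_sw (G : MvPolynomial (Fin 3) ℂ) : rename sw (rename sw G) = G := by
  rw [rename_rename]
  have : (sw ∘ sw : Fin 3 → Fin 3) = id := by
    funext i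
    exact Equiv.swap_apply_self 0 1 i
  rw [this, rename_id]
  rfl

theorem IsPlaneCurve.swap (hF : IsPlaneCurve δ F c) : IsPlaneCurve δ (rename sw F) (c ∘ sw) where
  homog := hF.homog.rename_isHomogeneous
  irred := by
    have := (MulEquiv.irreducible_iff (renameEquiv ℂ sw).toMulEquiv (x := F)).2 hF.irred
    exact this
  smooth := by
    intro p hp h
    rw [eval_rename] at h
    obtain ⟨i, hi⟩ := hF.smooth (p ∘ sw) (by
      intro h0
      apply hp
      funext i
      have := congrFun h0 (sw i)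
      simpa [sw] using this) h
    refine ⟨sw i, ?_⟩
    rw [pderiv_rename sw.injective, eval_rename]
    exact hi
  zero := by
    intro d G hG
    rw [aeval_swap, hF.zero d _ hG.rename_isHomogeneous]
    constructor
    · intro h
      have := map_dvd (rename sw (R := ℂ)) h
      rwa [rename_sw_sw] at this
    · intro h
      have := map_dvd (rename sw (R := ℂ)) h
      rwa [rename_sw_sw] at this
  gen := by
    rw [← hF.gen]
    congr 1
    ext f
    constructor
    · rintro ⟨i, j, rfl⟩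
      exact ⟨sw i, sw j, rfl⟩
    · rintro ⟨i, j, rfl⟩
      refine ⟨sw i, sw j, ?_⟩
      simp [sw]

theorem IsHyperplane.swap {H : LineBundle K} (hH : IsHyperplane c H) : IsHyperplane (c ∘ sw) H := by
  intro v
  obtain ⟨h1, i, hi⟩ := hH v
  refine ⟨fun i => h1 (sw i), sw i, ?_⟩
  simpa [sw] using hi

/-- the first chart -/
theorem chart (hN1 : S_N1) (hK : IsCurve K) {H : LineBundle K} (h2 : 2 ≤ δ)
    (hF : IsPlaneCurve δ F c) (h1 : eval ![0, 0, 1] F = 1) (hH : IsHyperplane c H) (t : ℕ) {f : K}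
    (hf : f ∈ H0 (lpow H t)) : ∃ p : Fin δ → Polynomial ℂ,
    aeval c (pderiv 2 F) * f = c 0 ^ (t + δ - 1) *
      ∑ j, Polynomial.aeval (c 1 / c 0) (p j) * (c 2 / c 0) ^ (j : ℕ) := by
  have h0 := c_ne h2 hF 0
  obtain ⟨hm, hd⟩ := toB_monic (by omega) hF.homog h1
  obtain ⟨p, hp⟩ := hN1 K hK δ (c 1 / c 0) (c 2 / c 0) (z_transc h2 hF) (finrank_zK h2 hF h1)
    (adjoin_y h2 hF) (toB F) hm hd ((ev_eq_zero_iff h2 hF _).2 dvd_rfl) (f / c 0 ^ t) (by
      intro v hv
      have h3 := (s_N2a K δ F c h2 hF h1).2.2.2.2.2 v H hH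
      have h00 : 0 < v.val (c 0) := zero_lt_iff.2 (v.val_ne_zero h0)
      have h4 : v.val (c 1) ≤ v.val (c 0) := by
        rwa [map_div₀, div_le_one₀ h00] at hv
      rw [max_eq_left h4] at h3
      have h5 : v.val f ≤ v.val (((H.frame v) ^ (t : ℤ) : Kˣ) : K) := hf v
      rw [zpow_natCast, Units.val_pow_eq_pow_val, map_pow, h3] at h5
      rw [map_div₀, map_pow, div_le_one₀ (pow_pos h00 _)]
      exact h5)
  refine ⟨p, ?_⟩
  rw [← hp, derivative_toB, aeval_affine hF.homog.pderiv h0]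
  have h6 : t + δ - 1 = (δ - 1) + t := by omega
  rw [h6, pow_add]
  field_simp

theorem natDegree_le_of_rev {z : K} (hz : Transcendental ℂ z) {p q : Polynomial ℂ} {k : ℕ}
    (h : Polynomial.aeval z p = z ^ k * Polynomial.aeval z⁻¹ q) : p.natDegree ≤ k := by
  have hz0 : z ≠ 0 := ne_zero_of_transcendental hz
  have h1 : Polynomial.aeval z q.reverse = z ^ q.natDegree * Polynomial.aeval z⁻¹ q := by
    let _ : Invertible z⁻¹ := invertibleOfNonzero (inv_ne_zero hz0)
    have h2 := Polynomial.eval₂_reverse_mul_pow (algebraMap ℂ K) z⁻¹ q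
    rw [invOf_eq_inv, inv_inv] at h2
    rw [Polynomial.aeval_def, Polynomial.aeval_def, ← h2, inv_pow]
    field_simp
  have h3 : Polynomial.aeval z (p * Polynomial.X ^ q.natDegree) =
      Polynomial.aeval z (Polynomial.X ^ k * q.reverse) := by
    rw [map_mul, map_mul, h, h1, map_pow, map_pow, Polynomial.aeval_X]
    ring
  have h4 := transcendental_iff_injective.1 hz h3
  by_cases hp : p = 0
  · rw [hp]
    simp
  have h5 := congrArg Polynomial.natDegree h4
  rw [Polynomial.natDegree_mul_X_pow _ hp] at h5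
  have h6 := Polynomial.natDegree_mul_le (p := (Polynomial.X : Polynomial ℂ) ^ k) (q := q.reverse)
  rw [Polynomial.natDegree_X_pow] at h6
  have h7 := Polynomial.reverse_natDegree_le q
  omega

theorem form_mem_SS (c : Fin 3 → K) {t : ℕ} {G : MvPolynomial (Fin 3) ℂ}
    (hG : G.IsHomogeneous t) : aeval c G ∈ SS c t := ⟨G, hG, rfl⟩

theorem mono_mem_SS {c : Fin 3 → K} (h0 : c 0 ≠ 0) {M i j : ℕ} (h : i + j ≤ M) (a : ℂ) :
    c 0 ^ M * ((a • (c 1 / c 0) ^ i) * (c 2 / c 0) ^ j) ∈ SS c M := by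
  have h3 : (C a * (X 0 ^ (M - i - j) * X 1 ^ i * X 2 ^ j) :
      MvPolynomial (Fin 3) ℂ).IsHomogeneous M := by
    have h3 := (((isHomogeneous_X_pow (R := ℂ) (0 : Fin 3) (M - i - j)).mul
      (isHomogeneous_X_pow (1 : Fin 3) i)).mul (isHomogeneous_X_pow (2 : Fin 3) j))
    have h4 := (isHomogeneous_C (Fin 3) a).mul h3
    have h5 : 0 + (M - i - j + i + j) = M := by omega
    rwa [h5] at h4
  have h6 := form_mem_SS c h3
  have h7 : aeval c (C a * (X 0 ^ (M - i - j) * X 1 ^ i * X 2 ^ j) : MvPolynomial (Fin 3) ℂ) =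
      c 0 ^ M * ((a • (c 1 / c 0) ^ i) * (c 2 / c 0) ^ j) := by
    rw [map_mul, map_mul, map_mul, map_pow, map_pow, map_pow, aeval_X, aeval_X, aeval_X, algHom_C,
      Algebra.smul_def]
    have h5 : M = (M - i - j) + i + j := by omega
    have h8 : c 0 ^ M = c 0 ^ (M - i - j) * c 0 ^ i * c 0 ^ j := by
      rw [← pow_add, ← pow_add, ← h5]
    rw [h8, div_pow, div_pow]
    field_simp
  rwa [h7] at h6

theorem coeff_compare (h2 : 2 ≤ δ) (hF : IsPlaneCurve δ F c) (h1 : eval ![0, 0, 1] F = 1)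
    (p q : Fin δ → Polynomial ℂ) (k : Fin δ → ℕ)
    (h : ∑ j, Polynomial.aeval (c 1 / c 0) (p j) * (c 2 / c 0) ^ (j : ℕ) =
      ∑ j : Fin δ, ((c 1 / c 0) ^ k j * Polynomial.aeval (c 1 / c 0)⁻¹ (q j)) *
        (c 2 / c 0) ^ (j : ℕ)) (j : Fin δ) :
    Polynomial.aeval (c 1 / c 0) (p j) = (c 1 / c 0) ^ k j * Polynomial.aeval (c 1 / c 0)⁻¹ (q j) := by
  have hli := linearIndependent_y' h2 hF h1
  generalize c 1 / c 0 = z at *
  generalize c 2 / c 0 = y at *
  have hz : z ∈ ℂ⟮z⟯ := IntermediateField.mem_adjoin_simple_self ℂ z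
  have hmem : ∀ (r : Polynomial ℂ) (w : K), w ∈ ℂ⟮z⟯ → Polynomial.aeval w r ∈ ℂ⟮z⟯ := by
    intro r w hw
    rw [Polynomial.aeval_eq_sum_range]
    exact sum_mem fun i _ => IntermediateField.smul_mem _ (pow_mem hw _)
  let g : Fin δ → ℂ⟮z⟯ := fun j => ⟨Polynomial.aeval z (p j) - z ^ k j * Polynomial.aeval z⁻¹ (q j),
    sub_mem (hmem _ _ hz) (mul_mem (pow_mem hz _) (hmem _ _ (inv_mem hz)))⟩
  have hg : ∑ j, g j • y ^ (j : ℕ) = 0 := by
    rw [← sub_eq_zero, ← Finset.sum_sub_distrib] at h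
    rw [← h]
    refine Finset.sum_congr rfl fun j _ => ?_
    rw [← sub_mul]
    rfl
  have h5 := Fintype.linearIndependent_iff.1 hli g hg j
  have h6 : Polynomial.aeval z (p j) - z ^ k j * Polynomial.aeval z⁻¹ (q j) = 0 :=
    congrArg Subtype.val h5
  exact sub_eq_zero.1 h6

theorem s_N2b : S_N2b := by
  intro hN1 _ K _ _ hK δ F c H h2 hF h1 hH t f hf
  have htr := z_transc h2 hF
  have h0 := c_ne h2 hF 0
  have h0' := c_ne h2 hF 1
  obtain ⟨p, hp⟩ := chart hN1 hK h2 hF h1 hH t hf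
  have h1' : eval ![0, 0, 1] (rename sw F) = 1 := by
    rw [eval_rename]
    have : (![0, 0, 1] ∘ sw : Fin 3 → ℂ) = ![0, 0, 1] := by
      funext i
      fin_cases i <;> rfl
    rw [this, h1]
  obtain ⟨q, hq⟩ := chart hN1 hK h2 hF.swap h1' hH.swap t hf
  have hpd : aeval (c ∘ sw) (pderiv 2 (rename sw F)) = aeval c (pderiv 2 F) := by
    have h3 : pderiv 2 (rename sw F) = rename sw (pderiv 2 F) := by
      have := pderiv_rename sw.injective (x := (2 : Fin 3)) (p := F)
      exact this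
    rw [aeval_swap, h3, rename_sw_sw]
  rw [hpd] at hq
  have e0 : (c ∘ sw) 0 = c 1 := rfl
  have e1 : (c ∘ sw) 1 = c 0 := rfl
  have e2 : (c ∘ sw) 2 = c 2 := rfl
  rw [e0, e1, e2] at hq
  set M := t + δ - 1 with hM
  set z := c 1 / c 0 with hz
  set y := c 2 / c 0 with hy
  have hz0 : z ≠ 0 := ne_zero_of_transcendental htr
  have key : ∀ j, Polynomial.aeval z (p j) = z ^ (M - j) * Polynomial.aeval z⁻¹ (q j) := by
    have h3 : ∑ j, Polynomial.aeval z (p j) * y ^ (j : ℕ) =
        ∑ j : Fin δ, (z ^ (M - j) * Polynomial.aeval z⁻¹ (q j)) * y ^ (j : ℕ) := by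
      have h4 : c 0 ^ M * ∑ j, Polynomial.aeval z (p j) * y ^ (j : ℕ) =
          c 0 ^ M * ∑ j : Fin δ, (z ^ (M - j) * Polynomial.aeval z⁻¹ (q j)) * y ^ (j : ℕ) := by
        rw [← hp, hq, Finset.mul_sum, Finset.mul_sum]
        refine Finset.sum_congr rfl fun j _ => ?_
        have hj : M = (M - j) + j := by have := j.2; omega
        have e3 : c 0 / c 1 = z⁻¹ := by rw [hz, inv_div]
        have e4 : c 2 / c 1 = y / z := by
          rw [hy, hz]
          field_simp
        have e5 : c 1 = c 0 * z := by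
          rw [hz]
          field_simp
        rw [e3, e4, e5, div_pow, mul_pow]
        have e6 : z ^ M = z ^ (M - j) * z ^ (j : ℕ) := by rw [← pow_add, ← hj]
        rw [e6]
        field_simp
      exact mul_left_cancel₀ (pow_ne_zero _ h0) h4
    exact coeff_compare h2 hF h1 p q _ h3
  rw [hp, Finset.mul_sum]
  apply Submodule.sum_mem
  intro j _
  have hdeg := natDegree_le_of_rev htr (key j)
  rw [Polynomial.aeval_eq_sum_range' (n := M - j + 1) (by omega), Finset.sum_mul, Finset.mul_sum]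
  apply Submodule.sum_mem
  intro i hi
  rw [Finset.mem_range] at hi
  exact mono_mem_SS h0 (by have := j.2; omega) _

end Pool.Agent.W518.PC
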