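import Pool.Agent.W518.PC.Stmts

/-!
# Quotient bundles
-/

set_option autoImplicit false

open scoped WithZero Matrix
open IntermediateField
open Pool.Agent.Helper395.CS hiding genus
open Pool.Agent.Helper395.BC

namespace Pool.Agent.W518.PC

variable {K : Type} [Field K] [Algebra ℂ K] {n m q : ℕ}

theorem dot_transpose (J : Matrix (Fin n) (Fin m) K) (x : Fin n → K) (y : Fin m → K) :
    ∑ i, (Jᵀ *ᵥ x) i * y i = ∑ i, (J *ᵥ y) i * x i := by
  simp only [Matrix.mulVec, dotProduct, Finset.sum_mul, Matrix.transpose_apply]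
  rw [Finset.sum_comm]
  exact Finset.sum_congr rfl fun _ _ => Finset.sum_congr rfl fun _ _ => by ring

theorem s_Q : S_Q := by
  intro K _ _ hK n m q E F j hj hn
  obtain ⟨J, rfl⟩ : ∃ J : Matrix (Fin n) (Fin m) K, j = J.mulVecLin :=
    ⟨LinearMap.toMatrix' j, (Matrix.toLin'_toMatrix' j).symm⟩
  have hJs := transpose_surjective J hj.injective
  have h1 := LinearMap.finrank_range_add_finrank_ker (Jᵀ.mulVecLin)
  rw [LinearMap.range_eq_top.2 hJs, finrank_top, Module.finrank_fin_fun,
    Module.finrank_fin_fun] at h1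
  obtain ⟨j', hj', hr⟩ := exists_param (LinearMap.ker Jᵀ.mulVecLin) (m := q) (by omega)
  obtain ⟨J', rfl⟩ : ∃ J' : Matrix (Fin n) (Fin q) K, j' = J'.mulVecLin :=
    ⟨LinearMap.toMatrix' j', (Matrix.toLin'_toMatrix' j').symm⟩
  obtain ⟨G', hG'⟩ := exists_sub hK (bdual E) J'.mulVecLin hj'
  have hPs := transpose_surjective J' hj'
  have hker : LinearMap.ker J'ᵀ.mulVecLin = LinearMap.range J.mulVecLin := by
    symm
    apply Submodule.eq_of_le_of_finrank_eq
    · rintro _ ⟨x, rfl⟩
      rw [LinearMap.mem_ker]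
      have h2 : ∀ y : Fin q → K, ∑ i, (J'ᵀ.mulVecLin (J.mulVecLin x)) i * y i = 0 := by
        intro y
        rw [Matrix.mulVecLin_apply, Matrix.mulVecLin_apply, dot_transpose]
        have h3 : J'.mulVecLin y ∈ LinearMap.ker Jᵀ.mulVecLin := by rw [← hr]; exact ⟨y, rfl⟩
        rw [LinearMap.mem_ker, Matrix.mulVecLin_apply, Matrix.mulVecLin_apply] at h3
        have h4 := dot_transpose J (J' *ᵥ y) x
        rw [h3] at h4
        simp only [Pi.zero_apply, zero_mul, Finset.sum_const_zero] at h4
        rw [h4]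
        exact Finset.sum_congr rfl fun _ _ => mul_comm _ _
      funext k
      have h5 := h2 (Pi.single k 1)
      simpa [Pi.single_apply] using h5
    · have h2 := LinearMap.finrank_range_add_finrank_ker (J'ᵀ.mulVecLin)
      rw [LinearMap.range_eq_top.2 hPs, finrank_top, Module.finrank_fin_fun,
        Module.finrank_fin_fun] at h2
      have h3 : Module.finrank K (LinearMap.range J.mulVecLin) = m := by
        rw [LinearMap.finrank_range_of_inj hj.injective, Module.finrank_fin_fun]
      omega
  refine ⟨bdual G', J'ᵀ.mulVecLin, hPs, fun s => ?_, fun v t => ?_⟩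
  · rw [← hker, LinearMap.mem_ker]
  · constructor
    · intro ht
      obtain ⟨R, hR1, hR2⟩ := exists_retraction hG' v
      obtain ⟨M, rfl⟩ : ∃ M : Matrix (Fin q) (Fin n) K, R = M.mulVecLin :=
        ⟨LinearMap.toMatrix' R, (Matrix.toLin'_toMatrix' R).symm⟩
      refine ⟨Mᵀ *ᵥ t, ?_, ?_⟩
      · rw [← mem_bdual_bdual, mem_bdual]
        intro f hf
        rw [dot_transpose]
        have h2 := (mem_bdual G' v t).1 ht _ (hR2 f hf)
        rw [Matrix.mulVecLin_apply] at h2
        have h3 : ∑ i, (M *ᵥ f) i * t i = ∑ i, t i * (M *ᵥ f) i :=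
          Finset.sum_congr rfl fun _ _ => mul_comm _ _
        rw [h3]
        exact h2
      · have hMJ : M * J' = 1 := by
          ext a b
          have := congrFun (hR1 (Pi.single b 1)) a
          simp only [Matrix.mulVecLin_apply, Matrix.mulVec_mulVec] at this
          rw [Matrix.mulVec_single_one] at this
          rw [Matrix.one_apply]
          simpa [Pi.single_apply, Matrix.col] using this
        rw [Matrix.mulVecLin_apply, Matrix.mulVec_mulVec, ← Matrix.transpose_mul, hMJ,
          Matrix.transpose_one, Matrix.one_mulVec]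
    · rintro ⟨s, hs, rfl⟩
      rw [mem_bdual]
      intro y hy
      rw [Matrix.mulVecLin_apply, dot_transpose]
      exact (mem_bdual E v _).1 ((hG'.stalk v y).1 hy) s hs

end Pool.Agent.W518.PC
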