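import Pool.Agent.W518.PC.Stmts

/-!
# Sections and slopes of quotient bundles; maximal slopes
-/

set_option autoImplicit false

open scoped WithZero Matrix
open IntermediateField
open Pool.Agent.Helper395.CS hiding genus
open Pool.Agent.Helper395.BC

namespace Pool.Agent.W518.PC

variable {K : Type} [Field K] [Algebra ℂ K] {n m q : ℕ}

theorem s_Q2 : S_Q2 := by
  intro K _ _ hK hg n m q E F j G P hj hP hPj hPG
  constructor
  · -- sections
    have := (rr hK hg E).1
    have := (rr hK hg F).1
    have := (rr hK hg G).1
    let φ : E.sections →ₗ[ℂ] G.sections :=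
      { toFun := fun s => ⟨P s.1, fun v => (hPG v _).2 ⟨s.1, s.2 v, rfl⟩⟩
        map_add' := fun s t => Subtype.ext (by
          change P (s.1 + t.1) = P s.1 + P t.1
          exact map_add _ _ _)
        map_smul' := fun c s => Subtype.ext (by
          change P (c • s.1) = c • P s.1
          rw [← algebraMap_smul K c s.1, map_smul, algebraMap_smul]) }
    let ψ : F.sections →ₗ[ℂ] E.sections :=
      { toFun := fun s => ⟨j s.1, fun v => (hj.stalk v _).1 (s.2 v)⟩
        map_add' := fun s t => Subtype.ext (by
          change j (s.1 + t.1) = j s.1 + j t.1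
          exact map_add _ _ _)
        map_smul' := fun c s => Subtype.ext (by
          change j (c • s.1) = c • j s.1
          rw [← algebraMap_smul K c s.1, map_smul, algebraMap_smul]) }
    have h1 := LinearMap.finrank_range_add_finrank_ker φ
    have h2 : Module.finrank ℂ (LinearMap.range φ) ≤ Module.finrank ℂ G.sections :=
      Submodule.finrank_le _
    have h3 : Module.finrank ℂ (LinearMap.ker φ) ≤ Module.finrank ℂ F.sections := by
      have h4 : LinearMap.ker φ ≤ LinearMap.range ψ := by
        intro s hs
        rw [LinearMap.mem_ker] at hs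
        have h5 : P s.1 = 0 := congrArg Subtype.val hs
        obtain ⟨x, hx⟩ := (hPj _).1 h5
        exact ⟨⟨x, fun v => (hj.stalk v x).2 (by rw [hx]; exact s.2 v)⟩, Subtype.ext hx⟩
      exact (Submodule.finrank_mono h4).trans (LinearMap.finrank_range_le ψ)
    omega
  · intro μ hE hF m' G' j' hm' hj'
    -- the preimage of the subbundle
    have hrank : Module.finrank K (Submodule.comap P (LinearMap.range j')) = m + m' := by
      let φ : Submodule.comap P (LinearMap.range j') →ₗ[K] LinearMap.range j' :=
        P.restrict (fun x hx => hx)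
      have hφ : Function.Surjective φ := by
        rintro ⟨y, hy⟩
        obtain ⟨x, hx⟩ := hP y
        refine ⟨⟨x, ?_⟩, Subtype.ext hx⟩
        rw [Submodule.mem_comap, hx]
        exact hy
      have h1 := LinearMap.finrank_range_add_finrank_ker φ
      rw [LinearMap.range_eq_top.2 hφ, finrank_top, LinearMap.finrank_range_of_inj hj'.injective,
        Module.finrank_fin_fun] at h1
      have h2 : Module.finrank K (LinearMap.ker φ) = m := by
        let e : (Fin m → K) →ₗ[K] LinearMap.ker φ :=
          { toFun := fun x => ⟨⟨j x, by
              rw [Submodule.mem_comap, (hPj _).2 ⟨x, rfl⟩]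
              exact zero_mem _⟩, by
              rw [LinearMap.mem_ker]
              exact Subtype.ext ((hPj _).2 ⟨x, rfl⟩)⟩
            map_add' := fun x y => Subtype.ext (Subtype.ext (map_add j x y))
            map_smul' := fun c x => Subtype.ext (Subtype.ext (map_smul j c x)) }
        have he : Function.Bijective e := by
          constructor
          · intro x y hxy
            apply hj.injective
            exact congrArg (fun z : LinearMap.ker φ => z.1.1) hxy
          · rintro ⟨⟨x, hx⟩, hx'⟩
            rw [LinearMap.mem_ker] at hx'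
            obtain ⟨y, hy⟩ := (hPj x).1 (congrArg Subtype.val hx')
            exact ⟨y, Subtype.ext (Subtype.ext hy)⟩
        rw [← (LinearEquiv.ofBijective e he).finrank_eq, Module.finrank_fin_fun]
      omega
    obtain ⟨i, hi, hir⟩ := exists_param _ hrank
    obtain ⟨E', hE'⟩ := exists_sub hK E i hi
    have hmem : ∀ x, P (i x) ∈ LinearMap.range j' := by
      intro x
      have : i x ∈ Submodule.comap P (LinearMap.range j') := by rw [← hir]; exact ⟨x, rfl⟩
      exact this
    -- the projection to the fibre of G'
    let ρ : LinearMap.range j' ≃ₗ[K] (Fin m' → K) := (LinearEquiv.ofInjective j' hj'.injective).symm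
    have hρ : ∀ y, j' (ρ y) = y.1 := fun y => by
      have := (LinearEquiv.ofInjective j' hj'.injective).apply_symm_apply y
      exact congrArg Subtype.val this
    let Q : (Fin (m + m') → K) →ₗ[K] (Fin m' → K) :=
      ρ.toLinearMap ∘ₗ (LinearMap.codRestrict (LinearMap.range j') (P ∘ₗ i) hmem)
    have hQ : ∀ x, j' (Q x) = P (i x) := fun x => hρ _
    -- F as a subbundle of E'
    have hji : ∀ x, j x ∈ LinearMap.range i := by
      intro x
      rw [hir, Submodule.mem_comap, (hPj _).2 ⟨x, rfl⟩]
      exact zero_mem _
    let σ : LinearMap.range i ≃ₗ[K] (Fin (m + m') → K) := (LinearEquiv.ofInjective i hi).symm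
    have hσ : ∀ y, i (σ y) = y.1 := fun y => by
      have := (LinearEquiv.ofInjective i hi).apply_symm_apply y
      exact congrArg Subtype.val this
    let k : (Fin m → K) →ₗ[K] (Fin (m + m') → K) :=
      σ.toLinearMap ∘ₗ (LinearMap.codRestrict (LinearMap.range i) j hji)
    have hk : ∀ x, i (k x) = j x := fun x => hσ _
    have hkF : IsSubbundle F E' k := by
      constructor
      · intro x y hxy
        apply hj.injective
        rw [← hk, ← hk, hxy]
      · intro v s
        rw [hj.stalk v s, hE'.stalk v, hk]
    have hQs : Function.Surjective Q := by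
      intro y
      obtain ⟨x, hx⟩ := hP (j' y)
      have h5 : x ∈ LinearMap.range i := by
        rw [hir, Submodule.mem_comap, hx]
        exact ⟨y, rfl⟩
      obtain ⟨w, hw⟩ := h5
      refine ⟨w, hj'.injective ?_⟩
      rw [hQ, hw, hx]
    have hdeg := (degree_exact hK (G := G') hkF hQs (fun s hs => by
        have h6 : P (i s) = 0 := by rw [← hQ, hs, map_zero]
        obtain ⟨x, hx⟩ := (hPj _).1 h6
        exact ⟨x, hi (by rw [hk, hx])⟩)
      (fun x => hj'.injective (by rw [hQ, hk, map_zero, (hPj _).2 ⟨x, rfl⟩]))
      (fun v s hs => by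
        rw [hj'.stalk v, hQ]
        exact (hPG v _).2 ⟨i s, (hE'.stalk v s).1 hs, rfl⟩)).2 (fun v t ht => by
        obtain ⟨s, hs, hst⟩ := (hPG v _).1 ((hj'.stalk v t).1 ht)
        have h5 : s ∈ LinearMap.range i := by
          rw [hir, Submodule.mem_comap, hst]
          exact ⟨t, rfl⟩
        obtain ⟨w, hw⟩ := h5
        refine ⟨w, (hE'.stalk v w).2 (by rw [hw]; exact hs), hj'.injective ?_⟩
        rw [hQ, hw, hst])
    have h7 := hE (m + m') E' i (by omega) hE'
    rw [hdeg] at h7
    push_cast at h7
    rw [hF] at h7
    linarith

end Pool.Agent.W518.PC
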