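import Pool.Agent.W518.PC.Cliff
import Pool.Agent.W518.PC.Quot
import Pool.Agent.W518.PC.Quot2
import Pool.Agent.W518.PC.MaxSlope
import Pool.Agent.W518.PC.Can
import Pool.Agent.W518.PC.Genus
import Pool.Agent.W518.PC.N2b
import Pool.Agent.W358.PC.T
import Pool.Agent.W358.PC.AB
import Pool.Agent.W358.PC.K
import Pool.Agent.W358.PC.N1
import Pool.Agent.W52.PC.N0
import Pool.Agent.W52.PC.N3
import Pool.Agent.W52.PC.N4
import Pool.Agent.W52.PC.N5
import Pool.Agent.W52.PC.N6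

/-!
# All parts together
-/

set_option autoImplicit false

open Pool.Agent.Helper395.CS hiding genus
open Pool.Agent.Helper395.BC

namespace Pool.Agent.W518.PC

theorem parts : Parts where
  t1 := Pool.Agent.W358.PC.s_T1
  t2 := Pool.Agent.W358.PC.s_T2
  t3 := Pool.Agent.W358.PC.s_T3
  t4 := Pool.Agent.W358.PC.s_T4
  q := s_Q
  q2 := s_Q2
  m := s_M
  k1 := Pool.Agent.W358.PC.s_K1
  k2 := Pool.Agent.W358.PC.s_K2
  k3 := Pool.Agent.W358.PC.s_K3
  k4 := Pool.Agent.W358.PC.s_K4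
  k5 := Pool.Agent.W358.PC.s_K5
  k6 := Pool.Agent.W358.PC.s_K6
  d := s_D Pool.Agent.W358.PC.s_A Pool.Agent.W358.PC.s_B
  j := s_J

theorem partsN : PartsN where
  n0 := Pool.Agent.W52.PC.s_N0
  n1 := Pool.Agent.W358.PC.s_N1
  n2a := s_N2a
  n2b := s_N2b
  n3 := Pool.Agent.W52.PC.s_N3
  n4 := Pool.Agent.W52.PC.s_N4
  n5 := Pool.Agent.W52.PC.s_N5
  n6 := Pool.Agent.W52.PC.s_N6
  n7 := s_N7

end Pool.Agent.W518.PC
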