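import Pool.Agent.W518.PC.Stmts2

/-!
# Normalised data for smooth plane curves, from the parts of `Stmts2`
-/

set_option autoImplicit false

open scoped WithZero Matrix
open IntermediateField
open Pool.Agent.Helper395.CS hiding genus
open Pool.Agent.Helper395.BC

namespace Pool.Agent.W518.PC

variable {K : Type} [Field K] [Algebra ℂ K] {δ : ℕ}

/-- the parts about plane curves -/
structure PartsN : Prop where
  n0 : S_N0
  n1 : S_N1
  n2a : S_N2a
  n2b : S_N2b
  n3 : S_N3
  n4 : S_N4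
  n5 : S_N5
  n6 : S_N6
  n7 : S_N7

theorem ord_frame_max (v : Point K) {l z : K} (hl : l ≠ 0) (h : v.val l = max 1 (v.val z)) :
    -v.ord l = max (-v.ord z) 0 := by
  rcases le_or_gt (v.val z) 1 with hz | hz
  · rw [max_eq_left hz] at h
    have h1 := v.ord_nonneg_of_val_le hz
    rw [v.val_eq_one_iff hl] at h
    rw [h, max_eq_right (by omega), neg_zero]
  · have hz0 : z ≠ 0 := by
      rintro rfl
      simp at hz
    rw [max_eq_right hz.le] at h
    rw [v.one_lt_val_iff hz0] at hz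
    have h1 : v.ord l = v.ord z := by unfold Point.ord; rw [h]
    rw [h1, max_eq_left (by omega)]

theorem exists_PD (P : PartsN) (hK : IsCurve K) (hg : genus K ≠ 0) (h2 : 2 ≤ δ)
    {F : MvPolynomial (Fin 3) ℂ} {c : Fin 3 → K} (hF : IsPlaneCurve δ F c) {H : LineBundle K}
    (hH : IsHyperplane c H) :
    ∃ (D : PD K δ) (a : K), a ≠ 0 ∧ ∀ v : Point K,
      v.val (H.frame v : K) = v.val (D.L.frame v : K) * v.val a := by
  obtain ⟨p, hp⟩ : ∃ p : Fin 3 → ℂ, MvPolynomial.eval p F ≠ 0 := by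
    by_contra hcon
    push Not at hcon
    exact hF.irred.ne_zero (MvPolynomial.funext fun p => by rw [hcon p, map_zero])
  obtain ⟨F', c', hF', h1, hH', -, -⟩ := P.n0 K δ F c h2 hF p hp
  have hHc := hH' H hH
  obtain ⟨h0, h1', htr, hgen, hfr, hval⟩ := P.n2a K δ F' c' h2 hF' h1
  set z := c' 1 / c' 0 with hz
  set y := c' 2 / c' 0 with hy
  set L : LineBundle K := lmul H (linv (lprin hK (Units.mk0 (c' 0) h0))) with hL
  have hfv : ∀ v : Point K, v.val (L.frame v : K) = max 1 (v.val z) := by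
    intro v
    change v.val (((H.frame v * (Units.mk0 (c' 0) h0)⁻¹ : Kˣ)) : K) = _
    rw [Units.val_mul, map_mul, hval v H hHc, Units.val_inv_eq_inv_val, map_inv₀, Units.val_mk0,
      hz, map_div₀]
    have h00 : 0 < v.val (c' 0) := zero_lt_iff.2 (v.val_ne_zero h0)
    rw [← div_eq_mul_inv]
    rcases le_total (v.val (c' 0)) (v.val (c' 1)) with h | h
    · rw [max_eq_right h, max_eq_right ((one_le_div₀ h00).2 h)]
    · rw [max_eq_left h, max_eq_left ((div_le_one₀ h00).2 h), div_self h00.ne']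
  have hdeg : L.degree = δ := by
    rw [← hfr, ← degZ_eq hK htr, degZ_eq_degP hK, degP, LineBundle.degree]
    exact finsum_congr fun v => ord_frame_max v (L.frame v).ne_zero (hfv v)
  have hdegH : H.degree = δ := by
    have := hdeg
    rw [hL, lmul_degree, linv_degree, lprin_degree] at this
    omega
  have hge := (P.n7 K hK hg δ H h2 (by rw [hdegH]; omega) (fun t ht => by
    rw [P.n5 P.n0 (P.n2b P.n1 P.n2a) P.n3 P.n4 K hK δ F' c' H h2 hF' h1 hHc t]
    exact P.n6 K δ F' c' hF' t ht)).2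
  refine ⟨⟨z, y, L, htr, hfv, fun v => ?_, hdeg, hfr, hgen, hge⟩, c' 0, h0, fun v => ?_⟩
  · rw [← hfv v]
    change _ ≤ v.val (((H.frame v * (Units.mk0 (c' 0) h0)⁻¹ : Kˣ)) : K)
    rw [Units.val_mul, map_mul, Units.val_inv_eq_inv_val, map_inv₀, Units.val_mk0, hy, map_div₀,
      div_eq_mul_inv]
    gcongr
    exact (hHc v).1 2
  · change v.val (H.frame v : K) = v.val (((H.frame v * (Units.mk0 (c' 0) h0)⁻¹ : Kˣ)) : K) * _
    rw [Units.val_mul, map_mul, Units.val_inv_eq_inv_val, map_inv₀, Units.val_mk0,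
      inv_mul_cancel_right₀ (v.val_ne_zero h0)]

end Pool.Agent.W518.PC
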