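import Pool.Agent.W518.PC.Final
import Pool.Agent.W518.PC.Plane

/-!
# Bundles computing the Clifford indices of a smooth plane curve
-/

set_option autoImplicit false

open scoped WithZero Matrix
open IntermediateField
open Pool.Agent.Helper395.CS hiding genus
open Pool.Agent.Helper395.BC

namespace Pool.Agent.W518.PC

variable {K : Type} [Field K] [Algebra ℂ K] {n δ : ℕ}

/-- `γ_n(E) = (d - 2 (h⁰(E) - n)) / n` -/
noncomputable def gam (E : Bundle K n) : ℚ :=
  ((E.degree : ℚ) - 2 * ((Module.finrank ℂ E.sections : ℚ) - n)) / n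

/-- The bundles in the definition of `Cliff_n(C)`: semistable of rank `n` with `h⁰(E) ≥ 2 n` and
`μ(E) ≤ g - 1`. -/
structure Contributes (E : Bundle K n) : Prop where
  semistable : IsSemistable E
  sections : 2 * n ≤ Module.finrank ℂ E.sections
  slope : (E.degree : ℚ) / n ≤ (genus K : ℚ) - 1

/-- `E` computes `Cliff_n(C)`: it is in the set of bundles that defines `Cliff_n(C)`, and `γ_n(E)` is
the minimum of `γ_n` on this set. -/
def Computes (E : Bundle K n) : Prop :=
  Contributes E ∧ ∀ E' : Bundle K n, Contributes E' → gam E ≤ gam E'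

theorem slopeLe_iff {E : Bundle K n} :
    IsSemistable E ↔ SlopeLe E ((E.degree : ℝ) / n) := by
  unfold IsSemistable SlopeLe
  refine forall_congr' fun m => forall_congr' fun F => forall_congr' fun j =>
    forall_congr' fun hm => forall_congr' fun _ => ?_
  have hm' : (0 : ℚ) < m := by exact_mod_cast hm
  rw [div_le_iff₀ hm']
  have : (((F.degree : ℚ) : ℝ) ≤ (((E.degree : ℚ) / n * m : ℚ) : ℝ)) ↔
      (F.degree : ℚ) ≤ (E.degree : ℚ) / n * m := Rat.cast_le
  rw [← this]
  push_cast
  rfl

theorem H0_lpow_one (hK : IsCurve K) (D : PD K δ) (h2 : 2 ≤ δ) (hg : genus K ≠ 0) :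
    3 ≤ Module.finrank ℂ (H0 D.L) := by
  have hfd := (rrL hK hg D.L).1
  have h1 : (1 : K) ∈ H0 D.L := fun v => by
    change v.val 1 ≤ _
    rw [map_one, D.frame_val]
    exact le_max_left _ _
  have hz : D.z ∈ H0 D.L := fun v => by
    change v.val _ ≤ _
    rw [D.frame_val]
    exact le_max_right _ _
  have hy : D.y ∈ H0 D.L := fun v => by
    change v.val _ ≤ _
    rw [D.frame_val]
    exact D.y_le v
  let w : Fin 3 → H0 D.L := ![⟨1, h1⟩, ⟨D.z, hz⟩, ⟨D.y, hy⟩]
  have hli : LinearIndependent ℂ w := by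
    rw [Fintype.linearIndependent_iff]
    intro a ha
    have h3 : a 0 • (1 : K) + a 1 • D.z + a 2 • D.y = 0 := by
      have := congrArg (Subtype.val) ha
      simpa [w, Fin.sum_univ_three] using this
    have ha2 : a 2 = 0 := by
      by_contra hne
      have hyz : D.y ∈ ℂ⟮D.z⟯ := by
        have h4 : D.y = -(a 2)⁻¹ • (a 0 • (1 : K) + a 1 • D.z) := by
          have h5 : a 2 • D.y = -(a 0 • (1 : K) + a 1 • D.z) := by
            rw [eq_neg_iff_add_eq_zero, add_comm]
            exact h3
          calc D.y = (a 2)⁻¹ • (a 2 • D.y) := by rw [smul_smul, inv_mul_cancel₀ hne, one_smul]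
            _ = _ := by rw [h5, smul_neg, neg_smul]
        rw [h4]
        have hzz := IntermediateField.mem_adjoin_simple_self ℂ D.z
        exact IntermediateField.smul_mem _
          (add_mem (IntermediateField.smul_mem _ (one_mem _)) (IntermediateField.smul_mem _ hzz))
      have h5 : (⊤ : IntermediateField ℂ⟮D.z⟯ K) = ⊥ := by
        rw [← D.gen, IntermediateField.adjoin_simple_eq_bot_iff, IntermediateField.mem_bot]
        exact ⟨⟨D.y, hyz⟩, rfl⟩
      have h6 : Module.finrank ℂ⟮D.z⟯ K = 1 := by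
        rw [← IntermediateField.finrank_top', h5, IntermediateField.finrank_bot]
      rw [D.finrank_eq] at h6
      omega
    rw [ha2, zero_smul, add_zero] at h3
    have ha1 : a 1 = 0 := by
      by_contra hne
      apply D.transc
      have h4 : D.z = algebraMap ℂ K (-(a 1)⁻¹ * a 0) := by
        have h5 : a 1 • D.z = -(a 0 • (1 : K)) := by
          rw [eq_neg_iff_add_eq_zero, add_comm]
          exact h3
        calc D.z = (a 1)⁻¹ • (a 1 • D.z) := by rw [smul_smul, inv_mul_cancel₀ hne, one_smul]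
          _ = _ := by
            rw [h5, smul_neg, smul_smul, Algebra.smul_def, mul_one, neg_mul, map_neg]
      rw [h4]
      exact isAlgebraic_algebraMap _
    rw [ha1, zero_smul, add_zero] at h3
    have ha0 : a 0 = 0 := by
      rcases smul_eq_zero.1 h3 with h | h
      · exact h
      · exact absurd h one_ne_zero
    intro i
    fin_cases i
    · exact ha0
    · exact ha1
    · exact ha2
  simpa using hli.fintype_card_le_finrank

theorem gam_ge (P : Parts) (hK : IsCurve K) (hg : genus K ≠ 0) (D : PD K δ) (h7 : 7 ≤ δ)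
    (hn : 0 < n) {E : Bundle K n} (hE : Contributes E) (hγ : gam E ≤ δ - 4) :
    ∃ A : GL (Fin n) K, IsBundleIso (lsum D.L n) E A := by
  have hn' : (0 : ℝ) < n := by exact_mod_cast hn
  have hnq : (0 : ℚ) < n := by exact_mod_cast hn
  have hge' : (genus K : ℝ) * 2 = ((δ : ℝ) - 1) * (δ - 2) := by exact_mod_cast D.genus_eq
  apply iso_of_small P hK hg D h7 hn E ((E.degree : ℝ) / n) (slopeLe_iff.1 hE.semistable)
    (by field_simp) ?_ hE.sections ?_
  · have h1 := hE.slope
    have h2 : (E.degree : ℝ) / n ≤ (genus K : ℝ) - 1 := by exact_mod_cast h1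
    linarith
  · unfold gam at hγ
    rw [div_le_iff₀ hnq] at hγ
    have h2 : (E.degree : ℝ) - 2 * ((Module.finrank ℂ E.sections : ℝ) - n) ≤ (δ - 4) * n := by
      exact_mod_cast hγ
    rw [div_mul_cancel₀ _ hn'.ne']
    linarith

theorem finrank_lsum (hK : IsCurve K) (hg : genus K ≠ 0) (L : LineBundle K) (n : ℕ) :
    Module.finrank ℂ (lsum L n).sections = n * Module.finrank ℂ (H0 L) := by
  have := (rrL hK hg L).1
  rw [(secEquiv L n).finrank_eq, Module.finrank_pi_fintype]
  simp

theorem iso_symm {E F : Bundle K n} {A : GL (Fin n) K} (h : IsBundleIso E F A) :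
    IsBundleIso F E A⁻¹ := by
  intro v s
  rw [h v (A⁻¹.1 *ᵥ s), gl_mulVec_inv]

theorem iso_trans {E F G : Bundle K n} {A B : GL (Fin n) K} (h : IsBundleIso E F A)
    (h' : IsBundleIso F G B) : IsBundleIso E G (B * A) := by
  intro v s
  rw [h v s, h' v, Units.val_mul, Matrix.mulVec_mulVec]

theorem iso_sub {E F : Bundle K n} {A : GL (Fin n) K} (h : IsBundleIso E F A) :
    IsSubbundle E F A.1.mulVecLin where
  injective := by
    intro x y hxy
    have := congrArg (A⁻¹.1 *ᵥ ·) hxy
    simpa [gl_inv_mulVec] using this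
  stalk := fun v s => h v s

theorem iso_degree (hK : IsCurve K) {E F : Bundle K n} {A : GL (Fin n) K} (h : IsBundleIso E F A) :
    E.degree = F.degree := (degree_of_full hK (iso_sub h)).symm

theorem iso_finrank {E F : Bundle K n} {A : GL (Fin n) K} (h : IsBundleIso E F A) :
    Module.finrank ℂ E.sections = Module.finrank ℂ F.sections := by
  let e : E.sections ≃ₗ[ℂ] F.sections :=
    { toFun := fun s => ⟨A.1 *ᵥ s.1, fun v => (h v s.1).1 (s.2 v)⟩
      invFun := fun s => ⟨A⁻¹.1 *ᵥ s.1, fun v => (iso_symm h v s.1).1 (s.2 v)⟩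
      left_inv := fun s => Subtype.ext (gl_inv_mulVec A s.1)
      right_inv := fun s => Subtype.ext (gl_mulVec_inv A s.1)
      map_add' := fun s t => Subtype.ext (by
        change A.1 *ᵥ (s.1 + t.1) = A.1 *ᵥ s.1 + A.1 *ᵥ t.1
        exact Matrix.mulVec_add _ _ _)
      map_smul' := fun c s => Subtype.ext (by
        change A.1 *ᵥ (c • s.1) = c • (A.1 *ᵥ s.1)
        exact Matrix.mulVec_smul _ _ _) }
  exact e.finrank_eq

theorem iso_gam (hK : IsCurve K) {E F : Bundle K n} {A : GL (Fin n) K} (h : IsBundleIso E F A) :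
    gam E = gam F := by
  unfold gam
  rw [iso_degree hK h, iso_finrank h]

theorem iso_contributes (P : Parts) (hK : IsCurve K) {E F : Bundle K n} {A : GL (Fin n) K}
    (h : IsBundleIso E F A) (hF : Contributes F) : Contributes E where
  semistable := by
    rw [slopeLe_iff, iso_degree hK h]
    exact P.k1 K hK n n F E _ (iso_sub h) _ (slopeLe_iff.1 hF.semistable)
  sections := by
    rw [iso_finrank h]
    exact hF.sections
  slope := by
    rw [iso_degree hK h]
    exact hF.slope

/-- the bundle `L^{⊕ n}` contributes -/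
theorem lsum_contributes (P : Parts) (hK : IsCurve K) (hg : genus K ≠ 0) (D : PD K δ)
    (h7 : 7 ≤ δ) (hn : 0 < n) : Contributes (lsum D.L n) ∧ gam (lsum D.L n) = δ - 4 := by
  have hnq : (0 : ℚ) < n := by exact_mod_cast hn
  have h3 : Module.finrank ℂ (H0 D.L) = 3 := by
    apply le_antisymm _ (H0_lpow_one hK D (by omega) hg)
    have h1 := bound P hK hg D (by omega) 1 (lsum D.L 1) _ (slopeLe_lsum P hK D.L 1)
    rw [D.deg, finrank_lsum hK hg] at h1
    have h2 := (P.t4 δ h7).2.1
    rw [Int.cast_natCast, h2] at h1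
    have h4 : (Module.finrank ℂ (H0 D.L) : ℝ) ≤ 3 := by
      push_cast at h1
      linarith
    exact_mod_cast h4
  have hge' : (genus K : ℚ) * 2 = ((δ : ℚ) - 1) * (δ - 2) := by exact_mod_cast D.genus_eq
  have h7q : (7 : ℚ) ≤ δ := by exact_mod_cast h7
  refine ⟨⟨?_, ?_, ?_⟩, ?_⟩
  · rw [slopeLe_iff, lsum_degree]
    have h1 := slopeLe_lsum P hK D.L n
    have h2 : (((n * D.L.degree : ℤ) : ℝ) / n) = D.L.degree := by
      push_cast
      field_simp
    rw [h2]
    exact h1
  · rw [finrank_lsum hK hg, h3]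
    omega
  · rw [lsum_degree, D.deg]
    push_cast
    rw [mul_div_cancel_left₀ _ hnq.ne']
    nlinarith
  · unfold gam
    rw [lsum_degree, D.deg, finrank_lsum hK hg, h3]
    push_cast
    field_simp
    ring

theorem lsum_iso {L H : LineBundle K} {a : K} (ha : a ≠ 0)
    (h : ∀ v : Point K, v.val (H.frame v : K) = v.val (L.frame v : K) * v.val a) (n : ℕ) :
    ∃ A : GL (Fin n) K, IsBundleIso (lsum L n) (lsum H n) A := by
  let M : Matrix (Fin n) (Fin n) K := Matrix.diagonal fun _ => a
  have hM : M.det ≠ 0 := by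
    rw [Matrix.det_diagonal]
    exact Finset.prod_ne_zero_iff.2 fun _ _ => ha
  refine ⟨Matrix.GeneralLinearGroup.mkOfDetNeZero M hM, fun v s => ?_⟩
  rw [mem_lsum_stalk, mem_lsum_stalk]
  refine forall_congr' fun i => ?_
  change v.val (s i) ≤ v.val (L.frame v : K) ↔ v.val ((M *ᵥ s) i) ≤ v.val (H.frame v : K)
  have h1 : (M *ᵥ s) i = a * s i := by
    simp [M, Matrix.mulVec_diagonal]
  rw [h1, h v, map_mul, mul_comm (v.val a)]
  exact (mul_le_mul_iff_left₀ (zero_lt_iff.2 (v.val_ne_zero ha))).symm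

/-- The answer: on a smooth plane curve of degree `δ ≥ 7` the bundles computing `Cliff_n` are exactly
those isomorphic to `H^{⊕ n}`, `H` the hyperplane bundle. -/
theorem answer (P : Parts) (PN : PartsN) (hK : IsCurve K) (hg : genus K ≠ 0) (h7 : 7 ≤ δ)
    {F : MvPolynomial (Fin 3) ℂ} {c : Fin 3 → K} (hF : IsPlaneCurve δ F c) {H : LineBundle K}
    (hH : IsHyperplane c H) (hn : 0 < n) (E : Bundle K n) :
    Computes E ↔ ∃ A : GL (Fin n) K, IsBundleIso E (lsum H n) A := by
  obtain ⟨D, a, ha, hDa⟩ := exists_PD PN hK hg (by omega) hF hH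
  obtain ⟨B, hB⟩ := lsum_iso ha hDa n
  obtain ⟨hc, hgam⟩ := lsum_contributes P hK hg D h7 hn
  constructor
  · intro hE
    obtain ⟨A, hA⟩ := gam_ge P hK hg D h7 hn hE.1 (by rw [← hgam]; exact hE.2 _ hc)
    exact ⟨_, iso_trans (iso_symm hA) hB⟩
  · rintro ⟨A, hA⟩
    have h1 := iso_trans hA (iso_symm hB)
    refine ⟨iso_contributes P hK h1 hc, fun E' hE' => ?_⟩
    rw [iso_gam hK h1, hgam]
    by_contra hcon
    rw [not_le] at hcon
    obtain ⟨A', hA'⟩ := gam_ge P hK hg D h7 hn hE' hcon.le
    rw [← iso_gam hK hA', hgam] at hcon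
    exact lt_irrefl _ hcon

end Pool.Agent.W518.PC
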