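import Pool.Agent.Helper395.BC.Twist

/-!
# Smooth plane curves: definitions for the project PC (MP_571cb2_ag)
-/

set_option autoImplicit false

open scoped WithZero Matrix
open IntermediateField
open Pool.Agent.Helper395.CS hiding genus
open Pool.Agent.Helper395.BC

namespace Pool.Agent.W518.PC

variable {K : Type} [Field K] [Algebra ℂ K] {n m : ℕ}

/-- the powers of a line bundle -/
def lpow (L : LineBundle K) (t : ℤ) : LineBundle K where
  frame v := L.frame v ^ t
  finite := L.finite.subset fun v hv h => hv (by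
    rw [Units.val_zpow_eq_zpow_val, map_zpow₀, h, one_zpow])

/-- the twist `E(t)` of a bundle by the `t`-th power of `L` -/
noncomputable def tw (L : LineBundle K) (E : Bundle K n) (t : ℤ) : Bundle K n := btw E (lpow L t)

/-- all subbundles of `E` have slope at most `μ` -/
def SlopeLe (E : Bundle K n) (μ : ℝ) : Prop :=
  ∀ (m : ℕ) (F : Bundle K m) (j : (Fin m → K) →ₗ[K] (Fin n → K)), 0 < m →
    IsSubbundle F E j → (F.degree : ℝ) ≤ μ * m

/-- Normalised plane curve data: `1, z, y` are sections of the line bundle `L` of degree `δ`, which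
is generated by `1` and `z`, they generate the function field, and the genus is the one of a smooth
plane curve. -/
structure PD (K : Type) [Field K] [Algebra ℂ K] (δ : ℕ) where
  z : K
  y : K
  L : LineBundle K
  transc : Transcendental ℂ z
  frame_val : ∀ v : Point K, v.val (L.frame v : K) = max 1 (v.val z)
  y_le : ∀ v : Point K, v.val y ≤ max 1 (v.val z)
  deg : L.degree = δ
  finrank_eq : Module.finrank ℂ⟮z⟯ K = δ
  gen : IntermediateField.adjoin ℂ⟮z⟯ {y} = ⊤
  genus_eq : (genus K : ℤ) * 2 = ((δ : ℤ) - 1) * ((δ : ℤ) - 2)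

/-- `C` is the smooth plane curve `F = 0` of degree `δ`, `K` is its function field and
`(c 0 : c 1 : c 2)` is its generic point, i.e. the `c i` are the homogeneous coordinates. -/
structure IsPlaneCurve (δ : ℕ) (F : MvPolynomial (Fin 3) ℂ) (c : Fin 3 → K) : Prop where
  homog : F.IsHomogeneous δ
  irred : Irreducible F
  smooth : ∀ p : Fin 3 → ℂ, p ≠ 0 → MvPolynomial.eval p F = 0 →
    ∃ i, MvPolynomial.eval p (MvPolynomial.pderiv i F) ≠ 0
  zero : ∀ (d : ℕ) (G : MvPolynomial (Fin 3) ℂ), G.IsHomogeneous d →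
    (MvPolynomial.aeval c G = 0 ↔ F ∣ G)
  gen : IntermediateField.adjoin ℂ {f : K | ∃ i j, f = c i / c j} = ⊤

/-- `H` is the line bundle generated by `c 0, c 1, c 2`, i.e. the hyperplane bundle `𝒪_C(1)` -/
def IsHyperplane (c : Fin 3 → K) (H : LineBundle K) : Prop :=
  ∀ v : Point K, (∀ i, v.val (c i) ≤ v.val (H.frame v : K)) ∧
    ∃ i, v.val (c i) = v.val (H.frame v : K)

/-- the function `Θ` for plane curves of degree `δ`, on the piece `j δ ≤ μ < (j + 1) δ`, `α = μ - j δ` -/
noncomputable def ThP (δ : ℕ) (j : ℤ) (α : ℝ) : ℝ :=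
  ((j : ℝ) + 1) * (j + 2) / 2 + (j + 1) * max 0 (min 1 ((α - 1) / (δ - 2))) + max 0 (α - (δ - 1))

/-- the function `Θ`, the upper bound for `h⁰(E) / rk E` for semistable bundles `E` of slope `μ` -/
noncomputable def Th (δ : ℕ) (μ : ℝ) : ℝ :=
  if ⌊μ / δ⌋ < -1 then 0 else
  if (δ : ℤ) - 3 < ⌊μ / δ⌋ then μ + 1 - ((δ : ℝ) - 1) * (δ - 2) / 2 else
  ThP δ ⌊μ / δ⌋ (μ - ⌊μ / δ⌋ * δ)

end Pool.Agent.W518.PC
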