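import Pool.Agent.W518.PC.Bound

/-!
# Bundles computing the Clifford indices of a plane curve
-/

set_option autoImplicit false

open scoped WithZero Matrix
open IntermediateField
open Pool.Agent.Helper395.CS hiding genus
open Pool.Agent.Helper395.BC

namespace Pool.Agent.W518.PC

variable {K : Type} [Field K] [Algebra ℂ K] {n m δ : ℕ}

/-- a bundle of degree `0` of rank `n` with all subbundles of slope at most `0` and at least `n`
sections is trivial -/
theorem trivial_of_sections (P : Parts) (hK : IsCurve K) (hg : genus K ≠ 0) (D : PD K δ)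
    (h7 : 7 ≤ δ) (E : Bundle K n) (hE : SlopeLe E 0) (hd : E.degree = 0)
    (hs : n ≤ Module.finrank ℂ E.sections) :
    ∃ A : GL (Fin n) K, ∀ v s, v.Reg s ↔ A.1 *ᵥ s ∈ E.stalk v := by
  set U := Submodule.span K (E.sections : Set (Fin n → K)) with hU
  have hUn : Module.finrank K U ≤ n := by
    have := Submodule.finrank_le U
    rwa [Module.finrank_fin_fun] at this
  obtain ⟨F, j, hF, hF2⟩ := P.k5 K hK n E U (fun s hs => Submodule.subset_span hs)
  have h1 := bound P hK hg D (by omega) _ F 0 (P.k1 K hK n _ E F j hF 0 hE)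
  rw [(P.t4 δ h7).1, mul_one, hF2] at h1
  have h2 : Module.finrank ℂ E.sections ≤ Module.finrank K U := by exact_mod_cast h1
  have h3 : Module.finrank K U = n := le_antisymm hUn (hs.trans h2)
  have h4 : U = ⊤ := by
    apply Submodule.eq_top_of_finrank_eq
    rw [h3, Module.finrank_fin_fun]
  obtain ⟨κ, a, ha, hsp, hli⟩ := exists_linearIndependent' K
    (fun i : E.sections => (i : Fin n → K))
  have hrange : Set.range (fun i : E.sections => (i : Fin n → K)) =
      (E.sections : Set (Fin n → K)) := by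
    ext x
    simp
  rw [hrange, ← hU, h4] at hsp
  let b : Module.Basis κ K (Fin n → K) := Module.Basis.mk hli hsp.ge
  have hfin : Fintype κ := FiniteDimensional.fintypeBasisIndex b
  let σ : κ ≃ Fin n := b.indexEquiv (Pi.basisFun K (Fin n))
  let b' := b.reindex σ
  have hb : ∀ i, b' i ∈ E.sections := by
    intro i
    have : b' i = (a (σ.symm i) : Fin n → K) := by
      simp [b', b]
    rw [this]
    exact (a (σ.symm i)).2
  let M : Matrix (Fin n) (Fin n) K := Matrix.of fun i k => b' k i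
  have hM : M.det ≠ 0 := by
    have h5 : M = (Pi.basisFun K (Fin n)).toMatrix b' := by
      ext i k
      simp [M, Module.Basis.toMatrix_apply]
    rw [h5]
    have h6 := Module.Basis.invertibleToMatrix (Pi.basisFun K (Fin n)) b'
    exact ((Matrix.isUnit_iff_isUnit_det _).1 (isUnit_of_invertible _)).ne_zero
  let A : GL (Fin n) K := Matrix.GeneralLinearGroup.mkOfDetNeZero M hM
  have hA : ∀ v s, s ∈ (trivialBundle K n).stalk v → A.1 *ᵥ s ∈ E.stalk v := by
    intro v s hs
    exact mulVec_mem_stalk E v A.1 (fun k => hb k v) ((mem_trivial v s).1 hs)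
  have h8 := (degree_compare hK hA).2 (by rw [trivialBundle_degree, hd])
  exact ⟨A, fun v s => by rw [← mem_trivial]; exact h8 v s⟩

/-- The conclusion for normalised data. -/
theorem iso_of_small (P : Parts) (hK : IsCurve K) (hg : genus K ≠ 0) (D : PD K δ) (h7 : 7 ≤ δ)
    (hn : 0 < n) (E : Bundle K n) (μ : ℝ) (hE : SlopeLe E μ) (hd : (E.degree : ℝ) = μ * n)
    (hμ : μ ≤ δ * (δ - 3) / 2) (hs : 2 * n ≤ Module.finrank ℂ E.sections)
    (hγ : μ * n - 2 * Module.finrank ℂ E.sections + 2 * n ≤ (δ - 4) * n) :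
    ∃ A : GL (Fin n) K, IsBundleIso (lsum D.L n) E A := by
  have hn' : (0 : ℝ) < n := by exact_mod_cast hn
  have h3 : 3 ≤ δ := by omega
  have h7' : (7 : ℝ) ≤ δ := by exact_mod_cast h7
  obtain ⟨t0, t1, t2, t3, t4⟩ := P.t4 δ h7
  have hs' : (2 : ℝ) * n ≤ Module.finrank ℂ E.sections := by exact_mod_cast hs
  have hb := bound P hK hg D h3 n E μ hE
  have hμ0 : 0 ≤ μ := by
    by_contra hcon
    rw [P.k3 K hK n E μ hE (by linarith), finrank_bot] at hs
    omega
  have hΘ : 2 ≤ Th δ μ := by
    by_contra hcon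
    rw [not_le] at hcon
    have : (n : ℝ) * Th δ μ < n * 2 := mul_lt_mul_of_pos_left hcon hn'
    linarith
  have hγ' : μ - 2 * Th δ μ + 2 ≤ δ - 4 := by
    have : (μ - 2 * Th δ μ + 2) * n ≤ (δ - 4) * n := by nlinarith
    exact le_of_mul_le_mul_right this hn'
  have hμδ : μ = δ := t4 μ hμ0 hμ hΘ hγ'
  subst hμδ
  rw [t1] at hb
  have h30 : (Module.finrank ℂ E.sections : ℝ) = n * 3 := by
    apply le_antisymm hb
    nlinarith
  have hge' : (genus K : ℝ) * 2 = ((δ : ℝ) - 1) * (δ - 2) := by exact_mod_cast D.genus_eq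
  have hsl : ∀ t : ℤ, SlopeLe (tw D.L E t) (δ + t * δ) := by
    intro t
    have h1 := P.k2 K hK n E (lpow D.L t) δ hE
    rw [lpow_degree, D.deg] at h1
    push_cast at h1
    exact h1
  have h61 := bound P hK hg D h3 n _ _ (hsl 1)
  rw [show (δ : ℝ) + ((1 : ℤ) : ℝ) * δ = 2 * δ by push_cast; ring, t2] at h61
  have hm1 : n ≤ Module.finrank ℂ (tw D.L E (-1)).sections := by
    rcases alternative P hK hg D h3 (fun r _ F μ hF => bound P hK hg D h3 r F μ hF) E δ hE hd
      with h | h | h
    · have h' : (n : ℝ) + 2 * Module.finrank ℂ E.sections ≤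
        Module.finrank ℂ (tw D.L E 1).sections +
          Module.finrank ℂ (tw D.L E (-1)).sections := by exact_mod_cast h
      have : (n : ℝ) ≤ Module.finrank ℂ (tw D.L E (-1)).sections := by nlinarith
      exact_mod_cast this
    · exfalso
      obtain ⟨r, hr, h⟩ := h
      rw [t1] at h
      have : (r : ℝ) < n := by exact_mod_cast hr
      linarith
    · exfalso
      obtain ⟨r, hr, h⟩ := h
      have h9 := P.t2 δ h3 δ
      rw [t1] at h9
      rw [show (δ : ℝ) * (δ - 3) - δ = δ * (δ - 4) by ring] at h h9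
      have h10 : (r : ℝ) < n := by exact_mod_cast hr
      have h11 := mul_lt_mul_of_pos_right h10 t3
      nlinarith
  have hsl0 := hsl (-1)
  rw [show (δ : ℝ) + ((-1 : ℤ) : ℝ) * δ = 0 by push_cast; ring] at hsl0
  have hd0 : (tw D.L E (-1)).degree = 0 := by
    rw [tw_degree]
    have : ((E.degree + n * (-1 * δ) : ℤ) : ℝ) = 0 := by
      push_cast
      rw [hd]
      ring
    exact_mod_cast this
  obtain ⟨A, hA⟩ := trivial_of_sections P hK hg D h7 _ hsl0 hd0 hm1
  refine ⟨A, fun v s => ?_⟩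
  have hA' := hA v ((D.L.frame v : K)⁻¹ • s)
  rw [tw, mem_btw, Matrix.mulVec_smul, smul_smul] at hA'
  have h12 : ((lpow D.L (-1)).frame v : K)⁻¹ * (D.L.frame v : K)⁻¹ = 1 := by
    change (((D.L.frame v) ^ (-1 : ℤ) : Kˣ) : K)⁻¹ * (D.L.frame v : K)⁻¹ = 1
    rw [zpow_neg_one, Units.val_inv_eq_inv_val, inv_inv, mul_inv_cancel₀ (D.L.frame v).ne_zero]
  rw [h12, one_smul] at hA'
  rw [← hA', mem_lsum_stalk]
  unfold Point.Reg LineBundle.stalk
  refine forall_congr' fun i => ?_
  rw [Pi.smul_apply, smul_eq_mul, map_mul, map_inv₀, inv_mul_le_iff₀ (frame_pos D.L v), mul_one]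
  rfl

/-- subbundles of `L^{⊕ n}` have slope at most `deg L` -/
theorem slopeLe_lsum (P : Parts) (hK : IsCurve K) (L : LineBundle K) (n : ℕ) :
    SlopeLe (lsum L n) L.degree := by
  have h0 : SlopeLe (trivialBundle K n) 0 := by
    intro m F j hm hj
    obtain ⟨J, rfl⟩ : ∃ J : Matrix (Fin n) (Fin m) K, j = J.mulVecLin :=
      ⟨LinearMap.toMatrix' j, (Matrix.toLin'_toMatrix' j).symm⟩
    obtain ⟨e, he⟩ := exists_minor J hj.injective
    have h1 := (degree_compare hK (E := trivialBundle K m) (F := F)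
      (A := Matrix.GeneralLinearGroup.mkOfDetNeZero _ he) (fun v s hs => by
        rw [mem_trivial]
        have h2 := (mem_trivial v _).1 ((hj.stalk v s).1 hs)
        intro i
        exact h2 (e i))).1
    rw [trivialBundle_degree] at h1
    simp only [zero_mul]
    exact_mod_cast h1
  have h1 := P.k2 K hK n _ L 0 h0
  rw [zero_add] at h1
  intro m F j hm hj
  refine h1 m F j hm ⟨hj.injective, fun v s => ?_⟩
  rw [hj.stalk v s, mem_lsum_stalk, mem_btw, mem_trivial]
  unfold Point.Reg LineBundle.stalk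
  refine forall_congr' fun i => ?_
  rw [Pi.smul_apply, smul_eq_mul, map_mul, map_inv₀, inv_mul_le_iff₀ (frame_pos L v), mul_one]
  rfl

end Pool.Agent.W518.PC
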