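import Pool.Agent.W518.PC.Stmts2

/-!
# Forms in three variables and the affine equation of a plane curve
-/

set_option autoImplicit false

open scoped WithZero Matrix
open IntermediateField
open Pool.Agent.Helper395.CS hiding genus
open Pool.Agent.Helper395.BC

namespace Pool.Agent.W518.PC

open MvPolynomial

variable {K : Type} [Field K] [Algebra ℂ K] {δ : ℕ}

/-- a form of degree `d` modulo `X 0, X 1` -/
theorem dec (d : ℕ) (F : MvPolynomial (Fin 3) ℂ) (hF : F.IsHomogeneous d) :
    ∃ (A B : MvPolynomial (Fin 3) ℂ) (r : ℂ), A.IsHomogeneous (d - 1) ∧ B.IsHomogeneous (d - 1) ∧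
      F = X 0 * A + X 1 * B + C r * X 2 ^ d := by
  rw [← F.support_sum_monomial_coeff]
  have hmon : ∀ a ∈ F.support, ∃ (A B : MvPolynomial (Fin 3) ℂ) (r : ℂ),
      A.IsHomogeneous (d - 1) ∧ B.IsHomogeneous (d - 1) ∧
      monomial a (coeff a F) = X 0 * A + X 1 * B + C r * X 2 ^ d := by
    intro a ha
    have hd : a 0 + a 1 + a 2 = d := by
      have h1 := hF (mem_support_iff.1 ha)
      rw [Finsupp.weight_apply, Finsupp.sum_fintype _ _ (by simp)] at h1
      simpa [Fin.sum_univ_three] using h1
    by_cases h0 : a 0 = 0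
    · by_cases h1 : a 1 = 0
      · refine ⟨0, 0, coeff a F, isHomogeneous_zero _ _ _, isHomogeneous_zero _ _ _, ?_⟩
        have h2 : a = Finsupp.single 2 d := by
          ext i
          fin_cases i
          · simpa using h0
          · simpa using h1
          · simp; omega
        rw [h2]
        simp only [mul_zero, zero_add]
        rw [X_pow_eq_monomial, C_mul_monomial, mul_one]
      · refine ⟨0, monomial (a - Finsupp.single 1 1) (coeff a F), 0, isHomogeneous_zero _ _ _,
          ?_, ?_⟩
        · apply isHomogeneous_monomial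
          rw [Finsupp.degree_eq_sum]
          simp [Fin.sum_univ_three]
          omega
        · have h2 : a = Finsupp.single 1 1 + (a - Finsupp.single 1 1) := by
            ext i
            fin_cases i
            · simp
            · simp; omega
            · simp
          rw [mul_zero, zero_add, C_0, zero_mul, add_zero, X, monomial_mul, one_mul, ← h2]
    · refine ⟨monomial (a - Finsupp.single 0 1) (coeff a F), 0, 0, ?_, isHomogeneous_zero _ _ _, ?_⟩
      · apply isHomogeneous_monomial
        rw [Finsupp.degree_eq_sum]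
        simp [Fin.sum_univ_three]
        omega
      · have h2 : a = Finsupp.single 0 1 + (a - Finsupp.single 0 1) := by
          ext i
          fin_cases i
          · simp; omega
          · simp
          · simp
        rw [mul_zero, add_zero, C_0, zero_mul, add_zero, X, monomial_mul, one_mul, ← h2]
  apply Finset.sum_induction _ (fun G : MvPolynomial (Fin 3) ℂ =>
    ∃ (A B : MvPolynomial (Fin 3) ℂ) (r : ℂ), A.IsHomogeneous (d - 1) ∧ B.IsHomogeneous (d - 1) ∧
      G = X 0 * A + X 1 * B + C r * X 2 ^ d) _ _ hmon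
  · rintro G G' ⟨A, B, r, hA, hB, h⟩ ⟨A', B', r', hA', hB', h'⟩
    refine ⟨A + A', B + B', r + r', hA.add hA', hB.add hB', ?_⟩
    rw [h, h', C_add]
    ring
  · exact ⟨0, 0, 0, isHomogeneous_zero _ _ _, isHomogeneous_zero _ _ _, by simp⟩

theorem dec_one {d : ℕ} {F : MvPolynomial (Fin 3) ℂ} (hF : F.IsHomogeneous d)
    (h1 : eval ![0, 0, 1] F = 1) :
    ∃ (A B : MvPolynomial (Fin 3) ℂ), A.IsHomogeneous (d - 1) ∧ B.IsHomogeneous (d - 1) ∧
      F = X 0 * A + X 1 * B + X 2 ^ d := by
  obtain ⟨A, B, r, hA, hB, h⟩ := dec d F hF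
  refine ⟨A, B, hA, hB, ?_⟩
  have hr : r = 1 := by
    have h2 := congrArg (eval ![0, 0, 1]) h
    rw [h1] at h2
    simp at h2
    exact h2.symm
  rw [hr, C_1, one_mul] at h
  exact h

/-- `F(1, X, Y)` -/
noncomputable def toB : MvPolynomial (Fin 3) ℂ →ₐ[ℂ] Polynomial (Polynomial ℂ) :=
  aeval ![1, Polynomial.C Polynomial.X, Polynomial.X]

theorem toB_natDegree {d : ℕ} {F : MvPolynomial (Fin 3) ℂ} (hF : F.IsHomogeneous d) :
    (toB F).natDegree ≤ d := by
  rw [← F.support_sum_monomial_coeff, map_sum]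
  apply Polynomial.natDegree_sum_le_of_forall_le
  intro a ha
  have hd : a 0 + a 1 + a 2 = d := by
    have h1 := hF (mem_support_iff.1 ha)
    rw [Finsupp.weight_apply, Finsupp.sum_fintype _ _ (by simp)] at h1
    simpa [Fin.sum_univ_three] using h1
  rw [toB, aeval_monomial, Finsupp.prod_fintype _ _ (by simp)]
  simp only [Fin.prod_univ_three, Matrix.cons_val_zero, one_pow, one_mul, Matrix.cons_val_one,
    Matrix.cons_val]
  rw [← Polynomial.C_pow]
  refine (Polynomial.natDegree_mul_le).trans ?_
  refine (add_le_add (le_of_eq (Polynomial.natDegree_C _)) Polynomial.natDegree_mul_le).trans ?_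
  rw [Polynomial.natDegree_C, Polynomial.natDegree_X_pow]
  omega

theorem toB_monic {d : ℕ} (hd : 0 < d) {F : MvPolynomial (Fin 3) ℂ} (hF : F.IsHomogeneous d)
    (h1 : eval ![0, 0, 1] F = 1) : (toB F).Monic ∧ (toB F).natDegree = d := by
  obtain ⟨A, B, hA, hB, h⟩ := dec_one hF h1
  have h2 : toB F = Polynomial.X ^ d + (toB A + Polynomial.C Polynomial.X * toB B) := by
    rw [h]
    simp only [toB, map_add, map_mul, aeval_X, map_pow, Matrix.cons_val_zero, Matrix.cons_val_one,
      Matrix.cons_val, one_mul]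
    ring
  have h3 : (toB A + Polynomial.C Polynomial.X * toB B).degree < (d : WithBot ℕ) := by
    have h4 : (toB A + Polynomial.C Polynomial.X * toB B).natDegree ≤ d - 1 := by
      apply Polynomial.natDegree_add_le_of_degree_le (toB_natDegree hA)
      refine Polynomial.natDegree_mul_le.trans ?_
      rw [Polynomial.natDegree_C, zero_add]
      exact toB_natDegree hB
    exact lt_of_le_of_lt Polynomial.degree_le_natDegree (by
      have : (toB A + Polynomial.C Polynomial.X * toB B).natDegree < d := by omega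
      exact_mod_cast this)
  rw [h2]
  refine ⟨Polynomial.monic_X_pow_add h3, Polynomial.natDegree_eq_of_degree_eq_some ?_⟩
  rw [Polynomial.degree_add_eq_left_of_degree_lt (by rwa [Polynomial.degree_X_pow]),
    Polynomial.degree_X_pow]

/-- homogenisation -/
theorem homogenise (g : Polynomial (Polynomial ℂ)) : ∃ N₀ : ℕ, ∀ N ≥ N₀,
    ∃ G : MvPolynomial (Fin 3) ℂ, G.IsHomogeneous N ∧ toB G = g := by
  induction g using Polynomial.induction_on' with
  | add p q hp hq =>
    obtain ⟨N₁, h1⟩ := hp
    obtain ⟨N₂, h2⟩ := hq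
    refine ⟨max N₁ N₂, fun N hN => ?_⟩
    obtain ⟨G₁, hG₁, e₁⟩ := h1 N (le_of_max_le_left hN)
    obtain ⟨G₂, hG₂, e₂⟩ := h2 N (le_of_max_le_right hN)
    exact ⟨G₁ + G₂, hG₁.add hG₂, by rw [map_add, e₁, e₂]⟩
  | monomial n p =>
    induction p using Polynomial.induction_on' with
    | add p q hp hq =>
      obtain ⟨N₁, h1⟩ := hp
      obtain ⟨N₂, h2⟩ := hq
      refine ⟨max N₁ N₂, fun N hN => ?_⟩
      obtain ⟨G₁, hG₁, e₁⟩ := h1 N (le_of_max_le_left hN)
      obtain ⟨G₂, hG₂, e₂⟩ := h2 N (le_of_max_le_right hN)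
      exact ⟨G₁ + G₂, hG₁.add hG₂, by rw [map_add, e₁, e₂, map_add]⟩
    | monomial m a =>
      refine ⟨m + n, fun N hN => ⟨C a * (X 0 ^ (N - (m + n)) * X 1 ^ m * X 2 ^ n), ?_, ?_⟩⟩
      · have h1 := (((isHomogeneous_X_pow (R := ℂ) (0 : Fin 3) (N - (m + n))).mul
          (isHomogeneous_X_pow (1 : Fin 3) m)).mul (isHomogeneous_X_pow (2 : Fin 3) n))
        have h2 := (isHomogeneous_C (Fin 3) a).mul h1
        convert h2 using 1
        omega
      · simp only [toB, map_mul, map_pow, aeval_X, Matrix.cons_val_zero, Matrix.cons_val_one,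
          Matrix.cons_val, one_pow, one_mul, algHom_C]
        rw [← Polynomial.C_mul_X_pow_eq_monomial, ← Polynomial.C_mul_X_pow_eq_monomial,
          Polynomial.C_mul, Polynomial.C_pow, ← mul_assoc]
        rfl

theorem ev_toB (z y : K) (G : MvPolynomial (Fin 3) ℂ) :
    ev z y (toB G) = aeval ![1, z, y] G := by
  induction G using MvPolynomial.induction_on with
  | C a =>
    rw [toB, algHom_C, algHom_C]
    change Polynomial.eval₂ _ _ (Polynomial.C (Polynomial.C a)) = _
    rw [Polynomial.eval₂_C]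
    change Polynomial.aeval z (Polynomial.C a) = _
    rw [Polynomial.aeval_C]
  | add p q hp hq => rw [map_add, map_add, map_add, hp, hq]
  | mul_X p i hp =>
    rw [map_mul, map_mul, map_mul, hp, aeval_X, toB, aeval_X]
    congr 1
    fin_cases i
    · simp
    · change Polynomial.eval₂ _ _ (Polynomial.C Polynomial.X) = _
      rw [Polynomial.eval₂_C]
      change Polynomial.aeval z Polynomial.X = _
      rw [Polynomial.aeval_X]
      rfl
    · change Polynomial.eval₂ _ _ Polynomial.X = _
      rw [Polynomial.eval₂_X]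
      rfl

/-- evaluation of a form -/
theorem aeval_smul {N : ℕ} {G : MvPolynomial (Fin 3) ℂ} (hG : G.IsHomogeneous N) (a : K)
    (c : Fin 3 → K) : aeval (fun i => a * c i) G = a ^ N * aeval c G := by
  rw [← G.support_sum_monomial_coeff, map_sum, map_sum, Finset.mul_sum]
  refine Finset.sum_congr rfl fun b hb => ?_
  have hd : b 0 + b 1 + b 2 = N := by
    have h1 := hG (mem_support_iff.1 hb)
    rw [Finsupp.weight_apply, Finsupp.sum_fintype _ _ (by simp)] at h1
    simpa [Fin.sum_univ_three] using h1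
  rw [aeval_monomial, aeval_monomial, Finsupp.prod_fintype _ _ (by simp),
    Finsupp.prod_fintype _ _ (by simp), Fin.prod_univ_three, Fin.prod_univ_three, ← hd]
  ring

theorem aeval_affine {N : ℕ} {G : MvPolynomial (Fin 3) ℂ} (hG : G.IsHomogeneous N)
    {c : Fin 3 → K} (h0 : c 0 ≠ 0) :
    aeval c G = c 0 ^ N * ev (c 1 / c 0) (c 2 / c 0) (toB G) := by
  rw [ev_toB, ← aeval_smul hG]
  congr 1
  congr 1
  funext i
  fin_cases i
  · simp
  · change c 1 = c 0 * (c 1 / c 0)
    field_simp
  · change c 2 = c 0 * (c 2 / c 0)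
    field_simp

/-- the valuation of a form -/
theorem val_form (v : Point K) {N : ℕ} {G : MvPolynomial (Fin 3) ℂ} (hG : G.IsHomogeneous N)
    {c : Fin 3 → K} {γ : ℤᵐ⁰} (h : ∀ i, v.val (c i) ≤ γ) : v.val (aeval c G) ≤ γ ^ N := by
  rw [← G.support_sum_monomial_coeff, map_sum]
  apply Valuation.map_sum_le
  intro b hb
  have hd : b 0 + b 1 + b 2 = N := by
    have h1 := hG (mem_support_iff.1 hb)
    rw [Finsupp.weight_apply, Finsupp.sum_fintype _ _ (by simp)] at h1
    simpa [Fin.sum_univ_three] using h1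
  rw [aeval_monomial, Finsupp.prod_fintype _ _ (by simp), Fin.prod_univ_three, map_mul, map_mul,
    map_mul, map_pow, map_pow, map_pow, ← hd, pow_add, pow_add]
  calc _ ≤ 1 * (γ ^ b 0 * γ ^ b 1 * γ ^ b 2) :=
        mul_le_mul' (v.const_le _) (mul_le_mul' (mul_le_mul' (pow_le_pow_left' (h 0) _)
          (pow_le_pow_left' (h 1) _)) (pow_le_pow_left' (h 2) _))
    _ = _ := one_mul _

end Pool.Agent.W518.PC
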