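import Pool.Agent.W518.PC.Forms

/-!
# The function field of a plane curve over `ℂ(z)`
-/

set_option autoImplicit false

open scoped WithZero Matrix
open IntermediateField
open Pool.Agent.Helper395.CS hiding genus
open Pool.Agent.Helper395.BC

namespace Pool.Agent.W518.PC

open MvPolynomial

variable {K : Type} [Field K] [Algebra ℂ K] {δ : ℕ} {F : MvPolynomial (Fin 3) ℂ} {c : Fin 3 → K}

theorem linear_ne (h2 : 2 ≤ δ) (hF : IsPlaneCurve δ F c) {l : MvPolynomial (Fin 3) ℂ}
    (hl : l.IsHomogeneous 1) (hl0 : l ≠ 0) : aeval c l ≠ 0 := by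
  intro h
  obtain ⟨Q, hQ⟩ := (hF.zero 1 l hl).1 h
  have hQ0 : Q ≠ 0 := by
    rintro rfl
    rw [mul_zero] at hQ
    exact hl0 hQ
  have h3 := totalDegree_mul_of_isDomain hF.irred.ne_zero hQ0
  rw [← hQ, hl.totalDegree hl0, hF.homog.totalDegree hF.irred.ne_zero] at h3
  omega

theorem c_ne (h2 : 2 ≤ δ) (hF : IsPlaneCurve δ F c) (i : Fin 3) : c i ≠ 0 := by
  have := linear_ne h2 hF (isHomogeneous_X ℂ i) (X_ne_zero i)
  rwa [aeval_X] at this

theorem z_transc (h2 : 2 ≤ δ) (hF : IsPlaneCurve δ F c) : Transcendental ℂ (c 1 / c 0) := by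
  by_contra h
  obtain ⟨r, hr⟩ := exists_const h
  have h1 : (X 1 - C r * X 0 : MvPolynomial (Fin 3) ℂ).IsHomogeneous 1 :=
    (isHomogeneous_X ℂ 1).sub (by
      have := (isHomogeneous_C (Fin 3) r).mul (isHomogeneous_X ℂ (0 : Fin 3))
      rwa [zero_add] at this)
  have h3 : (X 1 - C r * X 0 : MvPolynomial (Fin 3) ℂ) ≠ 0 := by
    intro h
    have := congrArg (eval ![0, 1, 0]) h
    simp at this
  apply linear_ne h2 hF h1 h3
  rw [map_sub, map_mul, aeval_X, aeval_X, algHom_C, ← hr, div_mul_cancel₀ _ (c_ne h2 hF 0),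
    sub_self]

/-- the relations between `z` and `y` -/
theorem ev_eq_zero_iff (h2 : 2 ≤ δ) (hF : IsPlaneCurve δ F c) (g : Polynomial (Polynomial ℂ)) :
    ev (c 1 / c 0) (c 2 / c 0) g = 0 ↔ toB F ∣ g := by
  have h0 := c_ne h2 hF 0
  constructor
  · intro h
    obtain ⟨N, hN⟩ := homogenise g
    obtain ⟨G, hG, rfl⟩ := hN N le_rfl
    have h1 : aeval c G = 0 := by rw [aeval_affine hG h0, h, mul_zero]
    exact map_dvd toB ((hF.zero N G hG).1 h1)
  · rintro ⟨Q, rfl⟩
    have h1 : aeval c F = 0 := (hF.zero δ F hF.homog).2 dvd_rfl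
    rw [aeval_affine hF.homog h0] at h1
    have h3 := (mul_eq_zero.1 h1).resolve_left (pow_ne_zero _ h0)
    rw [map_mul, h3, zero_mul]

theorem natDegree_lt_eq_zero (h2 : 2 ≤ δ) (hF : IsPlaneCurve δ F c)
    (h1 : eval ![0, 0, 1] F = 1) {g : Polynomial (Polynomial ℂ)} (hg : g.natDegree < δ)
    (h : ev (c 1 / c 0) (c 2 / c 0) g = 0) : g = 0 := by
  by_contra hne
  obtain ⟨hm, hd⟩ := toB_monic (by omega) hF.homog h1
  have := Polynomial.natDegree_le_of_dvd ((ev_eq_zero_iff h2 hF g).1 h) hne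
  omega

theorem linearIndependent_y' (h2 : 2 ≤ δ) (hF : IsPlaneCurve δ F c)
    (h1 : eval ![0, 0, 1] F = 1) :
    LinearIndependent ℂ⟮c 1 / c 0⟯ (fun j : Fin δ => (c 2 / c 0) ^ (j : ℕ)) := by
  classical
  have htr := z_transc h2 hF
  set z := c 1 / c 0 with hz
  set y := c 2 / c 0 with hy
  rw [Fintype.linearIndependent_iff]
  intro a ha
  have hex : ∀ j, ∃ r s : Polynomial ℂ, s ≠ 0 ∧ (a j : K) * Polynomial.aeval z s =
      Polynomial.aeval z r := by
    intro j
    obtain ⟨r, s, hrs⟩ := (IntermediateField.mem_adjoin_simple_iff ℂ (a j : K)).1 (a j).2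
    by_cases hs : s = 0
    · refine ⟨0, 1, one_ne_zero, ?_⟩
      rw [hs, map_zero, div_zero] at hrs
      rw [hrs]
      simp
    · refine ⟨r, s, hs, ?_⟩
      have h1 : Polynomial.aeval z s ≠ 0 := by
        intro h
        exact hs ((transcendental_iff.1 htr) s h)
      rw [hrs, div_mul_cancel₀ _ h1]
  choose r s hs hrs using hex
  let p : Fin δ → Polynomial ℂ := fun j => r j * ∏ i ∈ Finset.univ.erase j, s i
  have hp : ∀ j, Polynomial.aeval z (p j) = (a j : K) * Polynomial.aeval z (∏ i, s i) := by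
    intro j
    change Polynomial.aeval z (r j * ∏ i ∈ Finset.univ.erase j, s i) = _
    rw [← Finset.mul_prod_erase Finset.univ s (Finset.mem_univ j), map_mul, map_mul, ← mul_assoc,
      hrs j]
  let g : Polynomial (Polynomial ℂ) := ∑ j : Fin δ, Polynomial.C (p j) * Polynomial.X ^ (j : ℕ)
  have hg : ev z y g = 0 := by
    have h3 : ev z y g = ∑ j : Fin δ, Polynomial.aeval z (p j) * y ^ (j : ℕ) := by
      rw [map_sum]
      refine Finset.sum_congr rfl fun j _ => ?_
      rw [map_mul, map_pow]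
      change Polynomial.eval₂ _ _ (Polynomial.C (p j)) * (Polynomial.eval₂ _ _ Polynomial.X) ^ _ = _
      rw [Polynomial.eval₂_C, Polynomial.eval₂_X]
      rfl
    rw [h3]
    have h4 : ∑ j : Fin δ, Polynomial.aeval z (p j) * y ^ (j : ℕ) =
        Polynomial.aeval z (∏ i, s i) * ∑ j : Fin δ, a j • y ^ (j : ℕ) := by
      rw [Finset.mul_sum]
      refine Finset.sum_congr rfl fun j _ => ?_
      rw [hp j]
      change _ = _ * ((a j : K) * _)
      ring
    rw [h4, ha, mul_zero]
  have hgd : g.natDegree < δ := by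
    have : g.natDegree ≤ δ - 1 := by
      apply Polynomial.natDegree_sum_le_of_forall_le
      intro j _
      refine (Polynomial.natDegree_C_mul_X_pow_le _ _).trans ?_
      have := j.2
      omega
    omega
  have hg0 := natDegree_lt_eq_zero h2 hF h1 hgd hg
  intro j
  have h5 : p j = 0 := by
    have h6 := congrArg (fun q => Polynomial.coeff q (j : ℕ)) hg0
    simp only [g, Polynomial.finsetSum_coeff, Polynomial.coeff_C_mul, Polynomial.coeff_X_pow,
      Polynomial.coeff_zero] at h6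
    rw [Finset.sum_eq_single j] at h6
    · simpa using h6
    · intro i _ hij
      rw [if_neg, mul_zero]
      intro h
      exact hij (Fin.ext h.symm)
    · intro h
      exact absurd (Finset.mem_univ j) h
  have h6 := hp j
  rw [h5, map_zero] at h6
  have h7 : Polynomial.aeval z (∏ i, s i) ≠ 0 := by
    intro h
    have := (transcendental_iff.1 htr) _ h
    rw [Finset.prod_eq_zero_iff] at this
    obtain ⟨i, _, hi⟩ := this
    exact hs i hi
  exact Subtype.ext ((mul_eq_zero.1 h6.symm).resolve_right h7)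

theorem adjoin_y (h2 : 2 ≤ δ) (hF : IsPlaneCurve δ F c) :
    IntermediateField.adjoin ℂ⟮c 1 / c 0⟯ {c 2 / c 0} = ⊤ := by
  have h0 := c_ne h2 hF 0
  set L := IntermediateField.adjoin ℂ⟮c 1 / c 0⟯ {c 2 / c 0} with hL
  have hy : c 2 / c 0 ∈ L := IntermediateField.mem_adjoin_simple_self _ _
  have hz : c 1 / c 0 ∈ L := by
    have := L.algebraMap_mem (AdjoinSimple.gen ℂ (c 1 / c 0))
    exact this
  have h1 : (⊤ : IntermediateField ℂ K) ≤ L.restrictScalars ℂ := by
    rw [← hF.gen, IntermediateField.adjoin_le_iff]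
    have hi : ∀ i, c i / c 0 ∈ L := by
      intro i
      fin_cases i
      · change c 0 / c 0 ∈ L
        rw [div_self h0]
        exact one_mem _
      · exact hz
      · exact hy
    rintro _ ⟨i, j, rfl⟩
    have h3 : c i / c j = (c i / c 0) / (c j / c 0) := by
      rw [div_div_div_cancel_right₀ h0]
    rw [h3]
    exact div_mem (hi i) (hi j)
  rw [eq_top_iff]
  intro x _
  exact h1 (IntermediateField.mem_top (x := x))

theorem finrank_zK (h2 : 2 ≤ δ) (hF : IsPlaneCurve δ F c) (h1 : eval ![0, 0, 1] F = 1) :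
    Module.finrank ℂ⟮c 1 / c 0⟯ K = δ := by
  obtain ⟨hm, hd⟩ := toB_monic (by omega) hF.homog h1
  set z := c 1 / c 0 with hz
  set y := c 2 / c 0 with hy
  let φ : Polynomial ℂ →+* ℂ⟮z⟯ := (Polynomial.aeval (AdjoinSimple.gen ℂ z)).toRingHom
  have hφ : ∀ p, algebraMap ℂ⟮z⟯ K (φ p) = Polynomial.aeval z p := by
    intro p
    have h3 := Polynomial.aeval_algebraMap_apply K (AdjoinSimple.gen ℂ z) p
    exact h3.symm
  have hroot : Polynomial.aeval y ((toB F).map φ) = 0 := by
    have h3 : ev z y (toB F) = 0 := (ev_eq_zero_iff h2 hF _).2 dvd_rfl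
    rw [Polynomial.aeval_def, Polynomial.eval₂_map]
    have h4 : (algebraMap ℂ⟮z⟯ K).comp φ = (Polynomial.aeval z : Polynomial ℂ →ₐ[ℂ] K).toRingHom :=
      RingHom.ext hφ
    rw [h4]
    exact h3
  have hmm : ((toB F).map φ).Monic := hm.map φ
  have hint : IsIntegral ℂ⟮z⟯ y := ⟨_, hmm, hroot⟩
  have h3 : Module.finrank ℂ⟮z⟯ K = (minpoly ℂ⟮z⟯ y).natDegree := by
    rw [← IntermediateField.adjoin.finrank hint, adjoin_y h2 hF, IntermediateField.finrank_top']
  have h4 : (minpoly ℂ⟮z⟯ y).natDegree ≤ δ := by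
    have h5 := Polynomial.natDegree_le_of_dvd (minpoly.dvd ℂ⟮z⟯ y hroot) hmm.ne_zero
    rwa [hm.natDegree_map, hd] at h5
  have hpos : 0 < (minpoly ℂ⟮z⟯ y).natDegree := minpoly.natDegree_pos hint
  have : FiniteDimensional ℂ⟮z⟯ K := Module.finite_of_finrank_pos (by rw [h3]; exact hpos)
  have h5 : δ ≤ Module.finrank ℂ⟮z⟯ K := by
    have h6 := (linearIndependent_y' h2 hF h1).fintype_card_le_finrank
    rwa [Fintype.card_fin] at h6
  change Module.finrank ℂ⟮z⟯ K = δ
  omega

theorem s_N2a : S_N2a := by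
  intro K _ _ δ F c h2 hF h1
  refine ⟨c_ne h2 hF 0, c_ne h2 hF 1, z_transc h2 hF, adjoin_y h2 hF, finrank_zK h2 hF h1, ?_⟩
  intro v H hH
  obtain ⟨hle, i, hi⟩ := hH v
  have hc2 : v.val (c 2) ≤ max (v.val (c 0)) (v.val (c 1)) := by
    by_contra hcon
    rw [not_le, max_lt_iff] at hcon
    obtain ⟨A, B, hA, hB, h⟩ := dec_one hF.homog h1
    have h3 : aeval c F = 0 := (hF.zero δ F hF.homog).2 dvd_rfl
    rw [h] at h3
    simp only [map_add, map_mul, aeval_X, map_pow] at h3
    have h4 : c 2 ^ δ = -(c 0 * aeval c A + c 1 * aeval c B) := by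
      rw [eq_neg_iff_add_eq_zero, add_comm]
      exact h3
    have hb : ∀ i, v.val (c i) ≤ v.val (c 2) := by
      intro i
      fin_cases i
      · exact hcon.1.le
      · exact hcon.2.le
      · exact le_refl _
    have hpos : 0 < v.val (c 2) := zero_lt_iff.2 (v.val_ne_zero (c_ne h2 hF 2))
    have h5 : v.val (c 2 ^ δ) < v.val (c 2) * v.val (c 2) ^ (δ - 1) := by
      rw [h4, Valuation.map_neg]
      apply Valuation.map_add_lt
      · rw [map_mul]
        exact lt_of_le_of_lt (mul_le_mul' le_rfl (val_form v hA hb))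
          (mul_lt_mul_of_pos_right hcon.1 (pow_pos hpos _))
      · rw [map_mul]
        exact lt_of_le_of_lt (mul_le_mul' le_rfl (val_form v hB hb))
          (mul_lt_mul_of_pos_right hcon.2 (pow_pos hpos _))
    rw [map_pow, ← pow_succ', Nat.sub_add_cancel (by omega)] at h5
    exact lt_irrefl _ h5
  apply le_antisymm
  · rw [← hi]
    fin_cases i
    · exact le_max_left _ _
    · exact le_max_right _ _
    · exact hc2
  · exact max_le (hle 0) (hle 1)

end Pool.Agent.W518.PC
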