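import Pool.Agent.W518.PC.Bound

/-!
# The second difference of `h⁰(E(t))`
-/

set_option autoImplicit false

open scoped WithZero Matrix
open IntermediateField
open Pool.Agent.Helper395.CS hiding genus
open Pool.Agent.Helper395.BC

namespace Pool.Agent.W518.PC

variable {K : Type} [Field K] [Algebra ℂ K] {n m δ : ℕ}

theorem mem_tw (L : LineBundle K) (E : Bundle K n) (t : ℤ) (v : Point K) (s : Fin n → K) :
    s ∈ (tw L E t).stalk v ↔ ((L.frame v : K) ^ t)⁻¹ • s ∈ E.stalk v := by
  rw [tw, mem_btw]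
  change (((L.frame v) ^ t : Kˣ) : K)⁻¹ • s ∈ _ ↔ _
  rw [Units.val_zpow_eq_zpow_val]

theorem one_le_frame (D : PD K δ) (v : Point K) : 1 ≤ v.val (D.L.frame v : K) := by
  rw [D.frame_val]
  exact le_max_left _ _

theorem smul_mem_tw (D : PD K δ) (E : Bundle K n) (t : ℤ) {a : K}
    (ha : ∀ v : Point K, v.val a ≤ v.val (D.L.frame v : K)) {s : Fin n → K}
    (hs : s ∈ (tw D.L E t).sections) : a • s ∈ (tw D.L E (t + 1)).sections := by
  intro v
  have h1 := hs v
  rw [mem_tw] at h1 ⊢
  have hne : (D.L.frame v : K) ≠ 0 := (D.L.frame v).ne_zero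
  have h2 : ((D.L.frame v : K) ^ (t + 1))⁻¹ • a • s =
      (a / (D.L.frame v : K)) • (((D.L.frame v : K) ^ t)⁻¹ • s) := by
    rw [smul_smul, smul_smul, zpow_add_one₀ hne]
    congr 1
    field_simp
  rw [h2]
  apply stalk_smul h1
  rw [map_div₀]
  exact (div_le_one₀ (zero_lt_iff.2 (v.val_ne_zero hne))).2 (ha v)

theorem saturated (D : PD K δ) (E : Bundle K n) (t : ℤ) {s : Fin n → K}
    (hs : s ∈ (tw D.L E (t + 1)).sections) (hz : D.z • s ∈ (tw D.L E (t + 1)).sections) :
    s ∈ (tw D.L E t).sections := by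
  intro v
  have h1 := hs v
  have h2 := hz v
  rw [mem_tw] at h1 h2 ⊢
  have hne : (D.L.frame v : K) ≠ 0 := (D.L.frame v).ne_zero
  rcases le_total (v.val D.z) 1 with h | h
  · have h3 : v.val (D.L.frame v : K) = 1 := by rw [D.frame_val, max_eq_left h]
    have h4 : ((D.L.frame v : K) ^ t)⁻¹ • s =
        (D.L.frame v : K) • ((D.L.frame v : K) ^ (t + 1))⁻¹ • s := by
      rw [smul_smul, zpow_add_one₀ hne]
      congr 1
      field_simp
    rw [h4]
    exact stalk_smul h1 h3.le
  · have h3 : v.val (D.L.frame v : K) = v.val D.z := by rw [D.frame_val, max_eq_right h]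
    have hz0 : D.z ≠ 0 := ne_zero_of_transcendental D.transc
    have h4 : ((D.L.frame v : K) ^ t)⁻¹ • s =
        ((D.L.frame v : K) / D.z) • ((D.L.frame v : K) ^ (t + 1))⁻¹ • D.z • s := by
      rw [smul_smul, smul_smul, zpow_add_one₀ hne]
      congr 1
      field_simp
    rw [h4]
    apply stalk_smul h2
    rw [map_div₀, h3, div_self (v.val_ne_zero hz0)]

theorem s_D (hA : S_A) (hB : S_B) : S_D := by
  intro K _ _ hK hg δ D hδ n E hS
  have := hK.finiteDimensional D.transc
  let z' : ℂ⟮D.z⟯ := IntermediateField.AdjoinSimple.gen ℂ D.z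
  have hz' : (z' : K) = D.z := IntermediateField.AdjoinSimple.coe_gen ℂ D.z
  have htr : Transcendental ℂ z' := by
    intro h
    have h1 : IsAlgebraic ℂ (algebraMap ℂ⟮D.z⟯ K z') := h.algebraMap
    exact D.transc h1
  have hfr : ∀ x : ℂ⟮D.z⟯, ∃ p q : Polynomial ℂ, q ≠ 0 ∧
      x * Polynomial.aeval z' q = Polynomial.aeval z' p := by
    intro x
    obtain ⟨r, s, hrs⟩ := (IntermediateField.mem_adjoin_simple_iff ℂ (x : K)).1 x.2
    by_cases hs : s = 0
    · refine ⟨0, 1, one_ne_zero, ?_⟩
      rw [hs, map_zero, div_zero] at hrs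
      have : x = 0 := Subtype.ext hrs
      rw [this]
      simp
    · refine ⟨r, s, hs, ?_⟩
      apply Subtype.ext
      have h1 : Polynomial.aeval D.z s ≠ 0 := by
        intro h
        exact hs ((transcendental_iff.1 D.transc) s h)
      have h2 : ∀ p : Polynomial ℂ, ((Polynomial.aeval z' p : ℂ⟮D.z⟯) : K) =
          Polynomial.aeval D.z p := by
        intro p
        have h3 := Polynomial.aeval_algebraMap_apply K z' p
        exact h3.symm
      rw [MulMemClass.coe_mul, h2, h2, hrs, div_mul_cancel₀ _ h1]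
  have key := hA ℂ ℂ⟮D.z⟯ (Fin n → K) z' htr hfr (fun t => (tw D.L E t).sections)
    (fun t => (rr hK hg _).1)
    (fun t s hs => by
      have := smul_mem_tw D E t (a := 1) (fun v => by rw [map_one]; exact one_le_frame D v) hs
      rwa [one_smul] at this)
    (fun t s hs => smul_mem_tw D E t (a := D.z) (fun v => by
      rw [D.frame_val]; exact le_max_right _ _) hs)
    (fun t s hs hz => saturated D E t hs hz)
  have h0 := key (-1)
  have h1 := key 0
  rw [show (-1 : ℤ) + 1 = 0 by ring, tw_zero_sections] at h0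
  rw [show (0 : ℤ) + 1 = 1 by ring, tw_zero_sections] at h1
  set U := Submodule.span ℂ⟮D.z⟯ (E.sections : Set (Fin n → K)) with hU
  set U' := Submodule.span ℂ⟮D.z⟯ ((tw D.L E 1).sections : Set (Fin n → K)) with hU'
  have hmul : ∀ a : K, (∀ v : Point K, v.val a ≤ v.val (D.L.frame v : K)) → ∀ u ∈ U, a • u ∈ U' := by
    intro a ha u hu
    induction hu using Submodule.span_induction with
    | mem x hx =>
      apply Submodule.subset_span
      have := smul_mem_tw D E 0 ha (s := x) (by rw [tw_zero_sections]; exact hx)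
      rwa [zero_add] at this
    | zero => rw [smul_zero]; exact zero_mem _
    | add x y _ _ hx hy => rw [smul_add]; exact add_mem hx hy
    | smul c x _ hx =>
      rw [smul_comm]
      exact Submodule.smul_mem _ c hx
  have h2 := hB ℂ⟮D.z⟯ K (Fin n → K) D.y D.gen U U'
    (fun u hu => by
      have := hmul 1 (fun v => by rw [map_one]; exact one_le_frame D v) u hu
      rwa [one_smul] at this)
    (hmul D.y (fun v => by rw [D.frame_val]; exact D.y_le v)) hS
  have h3 : Submodule.span K (U' : Set (Fin n → K)) =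
      Submodule.span K ((tw D.L E 1).sections : Set (Fin n → K)) :=
    Submodule.span_span_of_tower _ _ _
  rw [h3] at h2
  omega

end Pool.Agent.W518.PC
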