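import Pool.Agent.W518.PC.Defs

/-!
# Project PC (MP_571cb2_ag): the parts, as Lean propositions

All parts are independent of each other.
-/

set_option autoImplicit false

open scoped WithZero Matrix
open IntermediateField
open Pool.Agent.Helper395.CS hiding genus
open Pool.Agent.Helper395.BC

namespace Pool.Agent.W518.PC

/-- PC-A. Count: the `F`-span of `W (t+1)` has dimension `dim W (t+1) - dim W t`.
Proof. Choose a `k`-complement `C` of `W t` in `W (t+1)`. (i) A `k`-basis of `C` is `F`-independent: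
clear denominators, a relation becomes `∑_{i ≤ m} z^i c_i = 0` with `c_i ∈ C`; then
`z^m c_m ∈ W (t+m)`, and saturation (`z^{i+1} c ∈ W (t+i+1)`, `z^i c ∈ W (t+i+1)` imply
`z^i c ∈ W (t+i)`) gives `c_m ∈ W t`, so `c_m = 0`. (ii) `C` spans: with a basis `a_i` of `W t` write
`z a_i = ∑ φ_ij a_j + c_i`, `c_i ∈ C`; the matrix `z - φ` has determinant `charpoly φ (z) ≠ 0`, so the
`a_i` are `F`-combinations of the `c_j`. -/
def S_A : Prop := ∀ (k F V : Type) [Field k] [Field F] [Algebra k F] [AddCommGroup V] [Module F V]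
  [Module k V] [IsScalarTower k F V] (z : F), Transcendental k z →
  (∀ x : F, ∃ p q : Polynomial k, q ≠ 0 ∧ x * Polynomial.aeval z q = Polynomial.aeval z p) →
  ∀ W : ℤ → Submodule k V, (∀ t, FiniteDimensional k (W t)) → (∀ t, W t ≤ W (t + 1)) →
  (∀ t, ∀ w ∈ W t, z • w ∈ W (t + 1)) →
  (∀ t, ∀ w ∈ W (t + 1), z • w ∈ W (t + 1) → w ∈ W t) →
  ∀ t, Module.finrank F (Submodule.span F (W (t + 1) : Set V)) + Module.finrank k (W t) =
    Module.finrank k (W (t + 1))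

/-- PC-B. Proof. `δ = [K:F]`, `y^δ = ∑_{i<δ} p_i y^i` with `p_i ∈ F`. The `F`-linear map
`Ψ : U^δ → U'^δ`, `(Ψ u)_i = u_{i-1} + p_i u_{δ-1} - y u_i` (`u_{-1} = 0`) is injective: if `Ψ u = 0`
then the `F`-span of the `u_i` is stable under `y`, so it is a `K`-subspace inside `U`, so `0`.
Its image lies in the kernel of `U'^δ → V`, `u ↦ ∑ y^i u_i`, whose image is the `K`-span of `U'`
(`F`-dimension `δ * dim_K`). Hence `δ dim_K (K U') ≤ δ dim_F U' - δ dim_F U`. -/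
def S_B : Prop := ∀ (F K V : Type) [Field F] [Field K] [Algebra F K] [AddCommGroup V] [Module K V]
  [Module F V] [IsScalarTower F K V] [FiniteDimensional K V] [FiniteDimensional F K] (y : K),
  IntermediateField.adjoin F {y} = ⊤ →
  ∀ U U' : Submodule F V, (∀ u ∈ U, u ∈ U') → (∀ u ∈ U, y • u ∈ U') →
  (∀ S : Submodule K V, (∀ s ∈ S, s ∈ U) → S = ⊥) →
  Module.finrank K (Submodule.span K (U' : Set V)) + Module.finrank F U ≤ Module.finrank F U'

/-- PC-T1. Monotonicity and positivity of `Θ`. -/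
def S_T1 : Prop := ∀ δ : ℕ, 3 ≤ δ → Monotone (Th δ) ∧ ∀ μ, 0 ≤ Th δ μ

/-- PC-T2. The symmetry of `Θ` (Riemann-Roch), `2 g - 2 = δ (δ - 3)`. -/
def S_T2 : Prop := ∀ δ : ℕ, 3 ≤ δ → ∀ μ : ℝ,
  Th δ μ = Th δ (δ * (δ - 3) - μ) + (μ + 1 - ((δ : ℝ) - 1) * (δ - 2) / 2)

/-- PC-T3. The second difference of `Θ` is `1`. -/
def S_T3 : Prop := ∀ δ : ℕ, 3 ≤ δ → ∀ μ : ℝ, 0 ≤ μ → μ ≤ δ * (δ - 3) →
  Th δ (μ + δ) - 2 * Th δ μ + Th δ (μ - δ) = 1

/-- PC-T4. The special values of `Θ` and the numerical end of the proof. (For `μ < δ - 1` one has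
`Θ < 2`; for `δ - 1 ≤ μ < δ` one has `Θ = 2 + (μ - δ + 1)`; for `μ ≥ δ` use convexity of `Θ` on
`[j δ, (j+1) δ]`: `Θ (j δ + α) ≤ (j+1)(j+2)/2 + (j+2) α / δ`.) -/
def S_T4 : Prop := ∀ δ : ℕ, 7 ≤ δ → Th δ 0 = 1 ∧ Th δ δ = 3 ∧ Th δ (2 * δ) = 6 ∧
  0 < Th δ (δ * (δ - 4)) ∧
  ∀ μ : ℝ, 0 ≤ μ → μ ≤ δ * (δ - 3) / 2 → 2 ≤ Th δ μ → μ - 2 * Th δ μ + 2 ≤ δ - 4 → μ = δ

/-- PC-Q. Quotient bundles. Proof. `P := ` any surjection with kernel `range j`. Define `G` by
duality: the subbundle `G'` of `bdual E` with generic fibre `{f | f ∘ j = 0}`, `G := bdual G'` (up to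
the identification of the generic fibre), or construct frames directly from the retractions
`exists_retraction`. Then `E_v → G_v` is onto. -/
def S_Q : Prop := ∀ (K : Type) [Field K] [Algebra ℂ K], IsCurve K → ∀ (n m q : ℕ) (E : Bundle K n)
  (F : Bundle K m) (j : (Fin m → K) →ₗ[K] (Fin n → K)), IsSubbundle F E j → n = m + q →
  ∃ (G : Bundle K q) (P : (Fin n → K) →ₗ[K] (Fin q → K)), Function.Surjective P ∧
    (∀ s, P s = 0 ↔ s ∈ LinearMap.range j) ∧ ∀ v t, t ∈ G.stalk v ↔ ∃ s ∈ E.stalk v, P s = t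

/-- PC-Q2. From quotient bundles: subbundles of the quotient by a subbundle of maximal slope.
Proof. A subbundle `G' ⊆ G` of rank `m'` lifts to the subbundle `E' = P⁻¹ G'` of `E` of rank `m + m'`;
`degree_exact` gives `deg E' = deg F + deg G'`; now `deg E' ≤ μ (m + m')`. For sections: `P` maps
`E.sections` to `G.sections` with kernel `j F.sections`. -/
def S_Q2 : Prop := ∀ (K : Type) [Field K] [Algebra ℂ K], IsCurve K → genus K ≠ 0 →
  ∀ (n m q : ℕ) (E : Bundle K n) (F : Bundle K m) (j : (Fin m → K) →ₗ[K] (Fin n → K))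
  (G : Bundle K q) (P : (Fin n → K) →ₗ[K] (Fin q → K)),
  IsSubbundle F E j → Function.Surjective P → (∀ s, P s = 0 ↔ s ∈ LinearMap.range j) →
  (∀ v t, t ∈ G.stalk v ↔ ∃ s ∈ E.stalk v, P s = t) →
  Module.finrank ℂ E.sections ≤ Module.finrank ℂ F.sections + Module.finrank ℂ G.sections ∧
  ∀ μ : ℝ, SlopeLe E μ → (F.degree : ℝ) = μ * m → SlopeLe G μ

/-- PC-M. There is a subbundle of maximal slope `μ₁`. Proof. The slopes `deg F / m`, `0 < m ≤ n`, are
bounded by `μ` and lie in the discrete set `(1 / n!) ℤ`. -/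
def S_M : Prop := ∀ (K : Type) [Field K] [Algebra ℂ K], IsCurve K → ∀ (n : ℕ) (E : Bundle K n)
  (μ : ℝ), 0 < n → SlopeLe E μ → ∃ μ₁ ≤ μ, SlopeLe E μ₁ ∧ ∃ (m : ℕ) (F : Bundle K m)
    (j : (Fin m → K) →ₗ[K] (Fin n → K)), 0 < m ∧ m ≤ n ∧ IsSubbundle F E j ∧
      (F.degree : ℝ) = μ₁ * m

/-- PC-K. Small facts. (1) subbundles of subbundles; (2) twists; (3) no sections in negative slope;
(4) the dual; (5) sections span a subbundle; (6) `dualK` is `H⁰` of `can ⊗ E*`. -/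
def S_K1 : Prop := ∀ (K : Type) [Field K] [Algebra ℂ K], IsCurve K → ∀ (n m : ℕ) (E : Bundle K n)
  (F : Bundle K m) (j : (Fin m → K) →ₗ[K] (Fin n → K)), IsSubbundle F E j → ∀ μ : ℝ,
  SlopeLe E μ → SlopeLe F μ

/-- PC-K2. (Subbundles `F` of `btw E R` are subbundles `btw F (linv R)` of `E`.) -/
def S_K2 : Prop := ∀ (K : Type) [Field K] [Algebra ℂ K], IsCurve K → ∀ (n : ℕ) (E : Bundle K n)
  (R : LineBundle K) (μ : ℝ), SlopeLe E μ → SlopeLe (btw E R) (μ + R.degree)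

/-- PC-K3. (A nonzero section generates a subbundle of rank one of degree `≥ 0`.) -/
def S_K3 : Prop := ∀ (K : Type) [Field K] [Algebra ℂ K], IsCurve K → ∀ (n : ℕ) (E : Bundle K n)
  (μ : ℝ), SlopeLe E μ → μ < 0 → E.sections = ⊥

/-- PC-K4. (`bdual_sub`.) -/
def S_K4 : Prop := ∀ (K : Type) [Field K] [Algebra ℂ K], IsCurve K → ∀ (n : ℕ) (E : Bundle K n)
  (μ : ℝ), SlopeLe E μ → (E.degree : ℝ) = μ * n → SlopeLe (bdual E) (-μ)

/-- PC-K5. If the sections of `E` span a `K`-subspace of dimension `r`, then they are the sections of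
a subbundle of rank `r`. (`exists_param`, `exists_sub`.) -/
def S_K5 : Prop := ∀ (K : Type) [Field K] [Algebra ℂ K], IsCurve K → ∀ (n : ℕ) (E : Bundle K n)
  (U : Submodule K (Fin n → K)), (∀ s ∈ E.sections, s ∈ U) →
  ∃ (F : Bundle K (Module.finrank K U)) (j : (Fin (Module.finrank K U) → K) →ₗ[K] (Fin n → K)),
    IsSubbundle F E j ∧ Module.finrank ℂ F.sections = Module.finrank ℂ E.sections

/-- PC-K6. `f ∈ dualK E` iff `f` is a section of `btw (bdual E) can`. -/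
def S_K6 : Prop := ∀ (K : Type) [Field K] [Algebra ℂ K] (hK : IsCurve K) (hg : genus K ≠ 0)
  (n : ℕ) (E : Bundle K n), dualK hK hg E = (btw (bdual E) (can hK hg)).sections

/-- PC-D. The second difference of `h⁰(E(t))`; from `S_A` (twice) and `S_B` with
`W t = (tw D.L E t).sections`, `F = ℂ(z)`, `U = F`-span of `W 0`, `U' = F`-span of `W 1`. -/
def S_D : Prop := ∀ (K : Type) [Field K] [Algebra ℂ K], IsCurve K → genus K ≠ 0 →
  ∀ (δ : ℕ) (D : PD K δ), 0 < δ → ∀ (n : ℕ) (E : Bundle K n),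
  (∀ S : Submodule K (Fin n → K),
    (∀ s ∈ S, s ∈ Submodule.span ℂ⟮D.z⟯ (E.sections : Set (Fin n → K))) → S = ⊥) →
  Module.finrank K (Submodule.span K ((tw D.L E 1).sections : Set (Fin n → K))) +
    2 * Module.finrank ℂ E.sections ≤
    Module.finrank ℂ (tw D.L E 1).sections + Module.finrank ℂ (tw D.L E (-1)).sections

/-- PC-J. Proof. `H⁰(L^(δ-3))` contains the monomials `z^i y^j`, `i + j ≤ δ - 3` (independent, as
`y` has degree `δ` over `ℂ(z)`), so `h⁰ ≥ g`, degree `2 g - 2`, so by Riemann-Roch (`rrL`)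
`can ≅ L^(δ-3)`: there is `a ≠ 0` with `v a * v (L.frame v)^(δ-3) = v (can.frame v)` for all `v`; so
`H⁰(can) = a • {polynomials in z, y of degree ≤ δ - 3}` (dimension `g`, `can_h0`), which is contained
in `a • T`, `T = ∑_{j ≤ δ-3} ℂ(z) y^j ≠ K`. For `f ∈ dualK E` the `K`-linear map `λ s = ∑ f_i s_i`
maps `H⁰(E)` into `H⁰(can)`, so it maps its `ℂ(z)`-span into `a • T`, so `λ S ⊆ a • T` is a
`K`-subspace of `K` different from `K`, so `λ S = 0`. -/
def S_J : Prop := ∀ (K : Type) [Field K] [Algebra ℂ K] (hK : IsCurve K) (hg : genus K ≠ 0)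
  (δ : ℕ) (D : PD K δ), 3 ≤ δ → ∀ (n : ℕ) (E : Bundle K n) (S : Submodule K (Fin n → K)),
  (∀ s ∈ S, s ∈ Submodule.span ℂ⟮D.z⟯ (E.sections : Set (Fin n → K))) →
  ∀ f ∈ dualK hK hg E, ∀ s ∈ S, ∑ i, f i * s i = 0

end Pool.Agent.W518.PC
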