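import Pool.Agent.W518.PC.Defs

/-!
# Project PC (MP_571cb2_ag): the parts about smooth plane curves, as Lean propositions

The aim of these parts is `S_PD`: a smooth plane curve of degree `δ` in the sense of `IsPlaneCurve`
has normalised data `PD K δ`, in particular the genus formula. All parts are independent.
-/

set_option autoImplicit false

open scoped WithZero Matrix
open IntermediateField MvPolynomial
open Pool.Agent.Helper395.CS hiding genus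
open Pool.Agent.Helper395.BC

namespace Pool.Agent.W518.PC

/-- The values of the forms of degree `t` at the generic point. -/
noncomputable def SS {K : Type} [Field K] [Algebra ℂ K] (c : Fin 3 → K) (t : ℕ) : Submodule ℂ K :=
  (homogeneousSubmodule (Fin 3) ℂ t).map (aeval c).toLinearMap

/-- evaluation of a polynomial in two variables, given as an element of `ℂ[X][Y]`, at `(z, y)` -/
noncomputable def ev {K : Type} [Field K] [Algebra ℂ K] (z y : K) :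
    Polynomial (Polynomial ℂ) →+* K :=
  Polynomial.eval₂RingHom (Polynomial.aeval z : Polynomial ℂ →ₐ[ℂ] K).toRingHom y

/-- PC-N0. Change of coordinates: choose `A ∈ GL_3(ℂ)` with `A e_2 = p`, `c' = A⁻¹ c`,
`F' = F(A x) / F(p)`. The last clause: the derivative of `F` in the direction `p`. -/
def S_N0 : Prop := ∀ (K : Type) [Field K] [Algebra ℂ K] (δ : ℕ) (F : MvPolynomial (Fin 3) ℂ)
  (c : Fin 3 → K), 2 ≤ δ → IsPlaneCurve δ F c → ∀ p : Fin 3 → ℂ, eval p F ≠ 0 →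
  ∃ (F' : MvPolynomial (Fin 3) ℂ) (c' : Fin 3 → K), IsPlaneCurve δ F' c' ∧
    eval ![0, 0, 1] F' = 1 ∧ (∀ H, IsHyperplane c H → IsHyperplane c' H) ∧
    (∀ t, SS c' t = SS c t) ∧
    ∑ i, p i • aeval c (pderiv i F) = eval p F • aeval c' (pderiv 2 F')

/-- PC-N1. Let `B` be the integral closure of `ℂ[z]` in `K`; `φ ∈ B` because `B` is Dedekind and
`v φ ≤ 1` at all its primes (see `above`, `under` in `Helper395/CS/Count.lean` and
`IsDedekindDomain.HeightOneSpectrum.mem_integers_of_valuation_le_one`); `f'(y)` lies in the conductor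
of `ℂ[z][y]` (Mathlib: `conductor_mul_differentIdeal`), so `f'(y) φ ∈ ℂ[z][y]`. -/
def S_N1 : Prop := ∀ (K : Type) [Field K] [Algebra ℂ K], IsCurve K → ∀ (δ : ℕ) (z y : K),
  Transcendental ℂ z → Module.finrank ℂ⟮z⟯ K = δ → IntermediateField.adjoin ℂ⟮z⟯ {y} = ⊤ →
  ∀ f : Polynomial (Polynomial ℂ), f.Monic → f.natDegree = δ → ev z y f = 0 →
  ∀ φ : K, (∀ v : Point K, v.val z ≤ 1 → v.val φ ≤ 1) →
  ∃ p : Fin δ → Polynomial ℂ,
    ev z y (Polynomial.derivative f) * φ = ∑ j, Polynomial.aeval z (p j) * y ^ (j : ℕ)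

/-- PC-N2a. The function field over `ℂ(z)`, `z = c 1 / c 0`, `y = c 2 / c 0`: a polynomial relation
`∑_{j<δ} p_j(z) y^j = 0` gives a form `G` of some degree (homogenise), `deg_{X 2} G < δ`, with
`G(c) = 0`, so `F ∣ G`; as `F` is monic of degree `δ` in `X 2`, `G = 0`. -/
def S_N2a : Prop := ∀ (K : Type) [Field K] [Algebra ℂ K] (δ : ℕ) (F : MvPolynomial (Fin 3) ℂ)
  (c : Fin 3 → K), 2 ≤ δ → IsPlaneCurve δ F c → eval ![0, 0, 1] F = 1 →
  c 0 ≠ 0 ∧ c 1 ≠ 0 ∧ Transcendental ℂ (c 1 / c 0) ∧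
  IntermediateField.adjoin ℂ⟮c 1 / c 0⟯ {c 2 / c 0} = ⊤ ∧
  Module.finrank ℂ⟮c 1 / c 0⟯ K = δ ∧
  (∀ v : Point K, ∀ H : LineBundle K, IsHyperplane c H →
    v.val (H.frame v : K) = max (v.val (c 0)) (v.val (c 1)))

/-- PC-N2b. From `S_N1` in the two charts `c 0 ≠ 0` and `c 1 ≠ 0`. With `z = c 1 / c 0`,
`y = c 2 / c 0`, `f₀` a section of `H^t`, `φ = f₀ / c 0 ^ t`: `F_2(1,z,y) φ = ∑_{j<δ} p_j(z) y^j`, and
in the other chart (`z' = 1/z`, `y' = y/z`, `φ' = φ / z^t`) `F_2(z',1,y') φ' = ∑_{j<δ} q_j(z') y'^j`;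
compare coefficients of the basis `y^j` over `ℂ(z)`: `p_j(z) = z^(t+δ-1-j) q_j(1/z)`, so
`deg p_j ≤ t + δ - 1 - j`, and `F_2(c) f₀ = ∑ c 0 ^ (t+δ-1) p_j(c 1 / c 0) (c 2 / c 0)^j`. -/
def S_N2b : Prop := S_N1 → S_N2a → ∀ (K : Type) [Field K] [Algebra ℂ K], IsCurve K →
  ∀ (δ : ℕ) (F : MvPolynomial (Fin 3) ℂ) (c : Fin 3 → K) (H : LineBundle K), 2 ≤ δ →
  IsPlaneCurve δ F c → eval ![0, 0, 1] F = 1 → IsHyperplane c H →
  ∀ (t : ℕ), ∀ f ∈ H0 (lpow H t), aeval c (pderiv 2 F) * f ∈ SS c (t + δ - 1)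

/-- PC-N3. Nullstellensatz (`MvPolynomial.vanishingIdeal_zeroLocus_eq_radical`) and Euler's relation:
every form `G` of large degree is a combination of the partial derivatives of `F` with homogeneous
coefficients (take homogeneous components). -/
def S_N3 : Prop := ∀ (δ : ℕ) (F : MvPolynomial (Fin 3) ℂ), 2 ≤ δ → F.IsHomogeneous δ →
  (∀ p : Fin 3 → ℂ, p ≠ 0 → eval p F = 0 → ∃ i, eval p (pderiv i F) ≠ 0) →
  ∃ N : ℕ, ∀ G : MvPolynomial (Fin 3) ℂ, G.IsHomogeneous (N + (δ - 1)) →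
    ∃ A : Fin 3 → MvPolynomial (Fin 3) ℂ, (∀ i, (A i).IsHomogeneous N) ∧
      G = ∑ i, A i * pderiv i F

/-- PC-N4. Depth: `X 0, X 1, F` is a regular sequence. `c 0 φ = A(c)`, `c 1 φ = B(c)` give
`X 1 A - X 0 B = F Q`; modulo `(X 0, X 1)` the form `F` is `X 2 ^ δ`, so `Q = X 0 Q_0 + X 1 Q_1`, so
`X 1 (A - F Q_1) = X 0 (B + F Q_0)`, so `A - F Q_1 = X 0 A'` and `φ = A'(c)`. -/
def S_N4 : Prop := ∀ (K : Type) [Field K] [Algebra ℂ K] (δ : ℕ) (F : MvPolynomial (Fin 3) ℂ)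
  (c : Fin 3 → K), 2 ≤ δ → IsPlaneCurve δ F c → eval ![0, 0, 1] F = 1 →
  ∀ (t : ℕ) (φ : K), c 0 * φ ∈ SS c (t + 1) → c 1 * φ ∈ SS c (t + 1) → φ ∈ SS c t

/-- PC-N5. Normality. From `S_N2b` applied after the changes of coordinates `S_N0` for three
linearly independent `p` with `F(p) ≠ 0` one gets `F_i(c) f ∈ SS c (t+δ-1)` for all `i`; then by
`S_N3` `G(c) f ∈ SS c (t + N')` for all forms `G` of degree `N' = N + δ - 1`; descending induction on
`N'` by `S_N4`: if `G(c) f ∈ SS` for all forms `G` of degree `k + 1` then also for those of degree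
`k`. (`SS c t ⊆ H⁰(H^t)` is clear.) -/
def S_N5 : Prop := S_N0 → (∀ (K : Type) [Field K] [Algebra ℂ K], IsCurve K →
  ∀ (δ : ℕ) (F : MvPolynomial (Fin 3) ℂ) (c : Fin 3 → K) (H : LineBundle K), 2 ≤ δ →
  IsPlaneCurve δ F c → eval ![0, 0, 1] F = 1 → IsHyperplane c H →
  ∀ (t : ℕ), ∀ f ∈ H0 (lpow H t), aeval c (pderiv 2 F) * f ∈ SS c (t + δ - 1)) → S_N3 → S_N4 →
  ∀ (K : Type) [Field K] [Algebra ℂ K], IsCurve K →
  ∀ (δ : ℕ) (F : MvPolynomial (Fin 3) ℂ) (c : Fin 3 → K) (H : LineBundle K), 2 ≤ δ →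
  IsPlaneCurve δ F c → eval ![0, 0, 1] F = 1 → IsHyperplane c H →
  ∀ (t : ℕ), H0 (lpow H t) = SS c t

/-- PC-N6. The dimension of `SS c t`: the kernel of the evaluation on the forms of degree `t` is
`F * {forms of degree t - δ}`. -/
def S_N6 : Prop := ∀ (K : Type) [Field K] [Algebra ℂ K] (δ : ℕ) (F : MvPolynomial (Fin 3) ℂ)
  (c : Fin 3 → K), IsPlaneCurve δ F c → ∀ t : ℕ, δ ≤ t →
  Module.finrank ℂ (SS c t) + (t - δ + 2).choose 2 = (t + 2).choose 2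

/-- PC-N7. The genus formula. By Riemann-Roch (`rrL`; `H¹ = 0` in large degree) and `S_N6`,
`t * deg H + 1 - g = C(t+2,2) - C(t-δ+2,2) = t δ + 1 - (δ-1)(δ-2)/2` for all large `t`. -/
def S_N7 : Prop := ∀ (K : Type) [Field K] [Algebra ℂ K], IsCurve K → genus K ≠ 0 → ∀ (δ : ℕ)
  (H : LineBundle K), 2 ≤ δ → 0 < H.degree →
  (∀ t : ℕ, δ ≤ t → Module.finrank ℂ (H0 (lpow H t)) + (t - δ + 2).choose 2 = (t + 2).choose 2) →
  H.degree = δ ∧ (genus K : ℤ) * 2 = ((δ : ℤ) - 1) * ((δ : ℤ) - 2)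

end Pool.Agent.W518.PC
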