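import Pool.Agent.W518.PC.Defs

/-!
# Project PC (MP_571cb2_ag): the genus of a plane curve is not zero

`genus K` is the dimension of `H¹(C, 𝒪)` and is `0` by convention if this space has infinite
dimension, so the library theorems `rr`, `rrL` have the hypothesis `genus K ≠ 0`. `S_G` removes this
hypothesis for plane curves.
-/

set_option autoImplicit false

open scoped WithZero Matrix
open IntermediateField
open Pool.Agent.Helper395.CS hiding genus
open Pool.Agent.Helper395.BC

namespace Pool.Agent.W518.PC

/-- PC-G. Let `l(D) = finrank (H0 D)`. Write `g' = (δ-1)(δ-2)/2 ≥ 1`. The hypothesis says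
`l(tH) = t δ + 1 - g'` for all `t ≥ δ`.

Proof. (1) For line bundles `D ≤ D'` (inclusion of stalks): `H0 D` and `H0 D'` are simultaneously
finite-dimensional and `l(D) ≤ l(D') ≤ l(D) + deg D' - deg D` (chain of elementary steps:
`Helper395.BC.modify`, `exists_modify`, `finrank_succ_aux`, see the proofs of `step` and `chain`; use
`lsum D 1`). (2) For every `D` there are `t` and `f ≠ 0` with `v(D.frame v) ≤ v f * v(H.frame v)^t`
for all `v`: with `D⁺ ≥ D`, `D⁺ ≥ 0` one has `l(tH - D⁺) ≥ l(tH) - deg D⁺ > 0` for large `t` (by (1)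
for `tH - D⁺ ≤ tH`), and `f` is the inverse of a nonzero section. (3) Hence
`deg D - l(D) ≤ deg(tH) - l(tH) = g' - 1` for every `D` (multiplication by `f` preserves `l` and the
degree; then (1)). (4) Let `D₀ = δ H` (`lpow H δ`). For `D ≥ D₀`, by (1), `deg D - l(D) ≥ g' - 1`, so
there is equality, so in every elementary step `D₁ < D₂` above `D₀` there is a section of `D₂` which
is not one of `D₁`, which gives `Om1 D₁ = Om1 D₂` (first case in the proof of `step`). So
`Om1 D₀ = Om1 D` for all `D ≥ D₀`. (5) Every repartition lies in `D` for some `D ≥ D₀`, so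
`Om1 D₀ = ⊥`. (6) So `LHasChi D₀ (δ * δ + 1 - g')`, and by `hasChi_of_hasChi` (`hasChi_lsum`,
`lHasChi_of_lsum`) `LHasChi (one K) (1 - g')`, so `Om1 (one K)` is finite-dimensional of dimension
`g'` (`H0_one`). (7) By `om1_one_eq` and `Submodule.dualQuotEquivDualAnnihilator` the dual of
`H¹(𝒪)` has dimension `g' ≥ 1`, so `H¹(𝒪)` is finite-dimensional of dimension `g'` (if the dual of a
vector space is finite-dimensional, so is the space). -/
def S_G : Prop := ∀ (K : Type) [Field K] [Algebra ℂ K], IsCurve K → ∀ (δ : ℕ) (H : LineBundle K),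
  3 ≤ δ → H.degree = δ →
  (∀ t : ℕ, δ ≤ t → FiniteDimensional ℂ (H0 (lpow H t)) ∧
    Module.finrank ℂ (H0 (lpow H t)) + (t - δ + 2).choose 2 = (t + 2).choose 2) →
  genus K ≠ 0

end Pool.Agent.W518.PC
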